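import Pool.Agent.T9h57.HS.Pg

/-!
# Sets of tuples which lie on few hyperplanes
-/

set_option autoImplicit false

namespace Pool.Agent.T9h57.HS

open Finset

/-- There are `K` and `Q` such that for all `C` and all large `N` the tuples `s ∈ [N, κ N] ^ k` with the property
`E (C ^ N)` lie on at most `K` hyperplanes `c_1 s_1 + ... + c_k s_k = b` with integers `c_j`, not all zero, and
`|c_j| ≤ Q`. -/
def OnHyperplanes {k : ℕ} (κ : ℕ) (E : ℝ → (Fin k → ℕ) → Prop) : Prop :=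
  ∃ K Q : ℕ, ∀ C : ℝ, ∃ N₀ : ℕ, ∀ N : ℕ, N₀ ≤ N → ∃ P : Finset ((Fin k → ℤ) × ℤ), P.card ≤ K ∧
    (∀ h ∈ P, h.1 ≠ 0 ∧ ∀ j, |h.1 j| ≤ Q) ∧
    ∀ s : Fin k → ℕ, (∀ j, N ≤ s j ∧ s j ≤ κ * N) → E (C ^ N) s → ∃ h ∈ P, ∑ j, h.1 j * (s j : ℤ) = h.2

/-- There is `K` such that for all `C` and all large `N`, for ALL finite sets `F_1, ..., F_k` of integers in `[N, κ N]`
at most `K ∑_i ∏_{j ≠ i} |F_j|` of the tuples in `F_1 × ... × F_k` have the property `E (C ^ N)`. -/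
def FewInProducts {k : ℕ} (κ : ℕ) (E : ℝ → (Fin k → ℕ) → Prop) : Prop :=
  ∃ K : ℕ, ∀ C : ℝ, ∃ N₀ : ℕ, ∀ N : ℕ, N₀ ≤ N → ∀ F : Fin k → Finset ℕ, (∀ i, ∀ n ∈ F i, N ≤ n ∧ n ≤ κ * N) →
    {s : Fin k → ℕ | (∀ i, s i ∈ F i) ∧ E (C ^ N) s}.ncard ≤ K * ∑ i, ∏ j ∈ univ.erase i, (F j).card

/-- For all `κ` there are `K` and `δ > 0` such that for all `C` and all large `X` there are at most `K` real numbers `t`
such that for all `N ∈ [X, κ X]` and all tuples `s` with the property `E (C ^ N)` and with `|s_j - N ξ_j| ≤ R` for all `j`,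
`R ≤ δ X`, one has `|N - t| ≤ K R` for one of the `t`. -/
def FewNear {k : ℕ} (E : ℝ → (Fin k → ℕ) → Prop) (ξ : Fin k → ℝ) : Prop :=
  ∀ κ : ℕ, ∃ (K : ℕ) (δ : ℝ), 0 < δ ∧ ∀ C : ℝ, ∃ X₀ : ℕ, ∀ X : ℕ, X₀ ≤ X → ∃ T : Finset ℝ, T.card ≤ K ∧
    ∀ (N : ℕ) (R : ℝ) (s : Fin k → ℕ), X ≤ N → N ≤ κ * X → R ≤ δ * X → (∀ j, |(s j : ℝ) - N * ξ j| ≤ R) →
      E (C ^ N) s → ∃ t ∈ T, |(N : ℝ) - t| ≤ K * R

lemma plane_product {k : ℕ} (F : Fin k → Finset ℕ) (u : Fin k → ℤ) (hu : u ≠ 0) (c : ℤ) :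
    ((Fintype.piFinset F).filter fun s => ∑ j, u j * (s j : ℤ) = c).card ≤
      ∑ i, ∏ j ∈ univ.erase i, (F j).card := by
  classical
  obtain ⟨i0, hi0⟩ : ∃ i, u i ≠ 0 := by
    by_contra h
    push Not at h
    exact hu (funext h)
  set T := (Fintype.piFinset F).filter fun s => ∑ j, u j * (s j : ℤ) = c with hT
  set g : (Fin k → ℕ) → (Fin k → ℕ) := fun s => Function.update s i0 0 with hg
  have hinj : Set.InjOn g (T : Set (Fin k → ℕ)) := by
    intro s hs s' hs' hss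
    rw [mem_coe, hT, mem_filter] at hs hs'
    have hoff : ∀ i, i ≠ i0 → s i = s' i := by
      intro i hi
      have h1 : g s i = g s' i := by rw [hss]
      simpa only [hg, Function.update_of_ne hi] using h1
    funext i
    by_cases hi : i = i0
    · subst hi
      have h1 := hs.2.trans hs'.2.symm
      rw [← add_sum_erase _ _ (mem_univ i), ← add_sum_erase _ _ (mem_univ i),
        sum_congr rfl fun j hj => by rw [hoff j (ne_of_mem_erase hj)]] at h1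
      have h2 : u i * (s i : ℤ) = u i * (s' i : ℤ) := by linarith
      exact_mod_cast mul_left_cancel₀ hi0 h2
    · exact hoff i hi
  rw [← card_image_of_injOn hinj]
  have h1 : T.image g ⊆ Fintype.piFinset fun i => if i = i0 then {0} else F i := by
    intro t ht
    obtain ⟨s, hs, rfl⟩ := mem_image.1 ht
    rw [Fintype.mem_piFinset]
    intro i
    rw [hT, mem_filter, Fintype.mem_piFinset] at hs
    by_cases hi : i = i0
    · subst hi
      simp [hg]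
    · simp only [hg, Function.update_of_ne hi, if_neg hi]
      exact hs.1 i
  refine (card_le_card h1).trans ?_
  rw [Fintype.card_piFinset]
  have h2 : ∀ i, (if i = i0 then ({0} : Finset ℕ) else F i).card = if i = i0 then 1 else (F i).card := by
    intro i
    split_ifs
    · simp
    · rfl
  simp only [h2]
  have h3 : ∏ i, (if i = i0 then 1 else (F i).card) = ∏ j ∈ univ.erase i0, (F j).card := by
    rw [← mul_prod_erase univ _ (mem_univ i0), if_pos rfl, one_mul]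
    exact prod_congr rfl fun j hj => by rw [if_neg (ne_of_mem_erase hj)]
  rw [h3]
  exact single_le_sum (f := fun i => ∏ j ∈ univ.erase i, (F j).card) (fun _ _ => Nat.zero_le _) (mem_univ i0)

theorem OnHyperplanes.mono {k κ : ℕ} {E E' : ℝ → (Fin k → ℕ) → Prop} (h : OnHyperplanes κ E)
    (hE : ∀ H s, E' H s → E H s) : OnHyperplanes κ E' := by
  obtain ⟨K, Q, hK⟩ := h
  refine ⟨K, Q, fun C => ?_⟩
  obtain ⟨N₀, hN⟩ := hK C
  refine ⟨N₀, fun N hN' => ?_⟩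
  obtain ⟨P, h1, h2, h3⟩ := hN N hN'
  exact ⟨P, h1, h2, fun s hs he => h3 s hs (hE _ _ he)⟩

theorem OnHyperplanes.products {k κ : ℕ} {E : ℝ → (Fin k → ℕ) → Prop} (h : OnHyperplanes κ E) :
    FewInProducts κ E := by
  classical
  obtain ⟨K, Q, hK⟩ := h
  refine ⟨K, fun C => ?_⟩
  obtain ⟨N₀, hN⟩ := hK C
  refine ⟨N₀, fun N hN' F hF => ?_⟩
  obtain ⟨P, h1, h2, h3⟩ := hN N hN'
  have hsub : {s : Fin k → ℕ | (∀ i, s i ∈ F i) ∧ E (C ^ N) s} ⊆
      ((P.biUnion fun h => (Fintype.piFinset F).filter fun s => ∑ j, h.1 j * (s j : ℤ) = h.2 :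
        Finset (Fin k → ℕ)) : Set (Fin k → ℕ)) := by
    rintro s ⟨hs1, hs2⟩
    obtain ⟨h, hh, he⟩ := h3 s (fun j => hF j _ (hs1 j)) hs2
    rw [mem_coe, mem_biUnion]
    exact ⟨h, hh, mem_filter.2 ⟨Fintype.mem_piFinset.2 hs1, he⟩⟩
  refine (Set.ncard_le_ncard hsub (Finset.finite_toSet _)).trans ?_
  rw [Set.ncard_coe_finset]
  refine card_biUnion_le.trans ((sum_le_card_nsmul _ _ (∑ i, ∏ j ∈ univ.erase i, (F j).card) fun h hh =>
    plane_product F h.1 (h2 h hh).1 h.2).trans ?_)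
  rw [smul_eq_mul]
  exact Nat.mul_le_mul_right _ h1

theorem OnHyperplanes.few {k κ : ℕ} {E : ℝ → (Fin k → ℕ) → Prop} (h : OnHyperplanes κ E) :
    ∃ K : ℕ, ∀ C : ℝ, ∃ N₀ : ℕ, ∀ N : ℕ, N₀ ≤ N →
      {s : Fin k → ℕ | (∀ j, N ≤ s j ∧ s j ≤ κ * N) ∧ E (C ^ N) s}.ncard ≤ K * N ^ (k - 1) := by
  classical
  obtain ⟨K, Q, hK⟩ := h
  refine ⟨K * κ ^ (k - 1), fun C => ?_⟩
  obtain ⟨N₀, hN⟩ := hK C
  refine ⟨N₀ + 1, fun N hN' => ?_⟩
  obtain ⟨P, h1, h2, h3⟩ := hN N (by omega)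
  have hsub : {s : Fin k → ℕ | (∀ j, N ≤ s j ∧ s j ≤ κ * N) ∧ E (C ^ N) s} ⊆
      ((P.biUnion fun h => (Fintype.piFinset fun _ : Fin k => Finset.Icc N (κ * N)).filter fun s =>
        ∑ j, h.1 j * (s j : ℤ) = h.2 : Finset (Fin k → ℕ)) : Set (Fin k → ℕ)) := by
    rintro s ⟨hs1, hs2⟩
    obtain ⟨h, hh, he⟩ := h3 s hs1 hs2
    rw [mem_coe, mem_biUnion]
    exact ⟨h, hh, mem_filter.2 ⟨Fintype.mem_piFinset.2 fun j => mem_Icc.2 (hs1 j), he⟩⟩
  refine (Set.ncard_le_ncard hsub (Finset.finite_toSet _)).trans ?_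
  rw [Set.ncard_coe_finset]
  refine card_biUnion_le.trans ((sum_le_card_nsmul _ _ ((κ * N + 1 - N) ^ (k - 1)) fun h hh =>
    Pool.Agent.X90.DB.card_plane N (κ * N) h.1 (h2 h hh).1 h.2).trans ?_)
  rw [smul_eq_mul, mul_assoc, ← mul_pow]
  exact Nat.mul_le_mul h1 (Nat.pow_le_pow_left (by omega) _)

/-- **every ray** -/
theorem OnHyperplanes.near {k : ℕ} {E : ℝ → (Fin k → ℕ) → Prop} (h : ∀ κ, OnHyperplanes κ E)
    (hE : ∀ H H' s, H ≤ H' → E H s → E H' s) (ξ : Fin k → ℝ) (hξ : ∀ j, 0 < ξ j)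
    (hli : LinearIndependent ℚ ξ) : FewNear E ξ := by
  classical
  intro κ
  -- bounds for the coordinates
  obtain ⟨m0, hm0, hm⟩ : ∃ m0 : ℝ, 0 < m0 ∧ ∀ j, m0 ≤ ξ j := by
    have h0 : 0 ≤ ∑ j, (ξ j)⁻¹ := sum_nonneg fun j _ => (inv_pos.2 (hξ j)).le
    refine ⟨(1 + ∑ j, (ξ j)⁻¹)⁻¹, by positivity, fun j => ?_⟩
    rw [inv_le_comm₀ (by positivity) (hξ j)]
    have := single_le_sum (f := fun j => (ξ j)⁻¹) (fun j _ => (inv_pos.2 (hξ j)).le) (mem_univ j)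
    linarith
  obtain ⟨m1, hm1, hm'⟩ : ∃ m1 : ℝ, 0 < m1 ∧ ∀ j, ξ j ≤ m1 := by
    have h0 : 0 ≤ ∑ j, ξ j := sum_nonneg fun j _ => (hξ j).le
    refine ⟨1 + ∑ j, ξ j, by positivity, fun j => ?_⟩
    have := single_le_sum (f := fun j => ξ j) (fun j _ => (hξ j).le) (mem_univ j)
    linarith
  obtain ⟨κ', hκ'⟩ := exists_nat_ge (4 * (κ * m1 + m0) / m0)
  obtain ⟨L, hL⟩ := exists_nat_ge (4 * κ / m0)
  obtain ⟨K, Q, hK⟩ := h κ'
  -- the values of the small linear forms at `ξ`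
  set lam : (Fin k → ℤ) → ℝ := fun c => ∑ j, (c j : ℝ) * ξ j with hlam
  have hlam0 : ∀ c : Fin k → ℤ, c ≠ 0 → lam c ≠ 0 := by
    intro c hc h0
    apply hc
    have h1 := Fintype.linearIndependent_iff.1 hli (fun j => (c j : ℚ)) (by
      rw [← h0, hlam]
      refine sum_congr rfl fun j _ => ?_
      rw [Rat.smul_def]
      norm_cast)
    funext j
    have := h1 j
    exact_mod_cast this
  set S : ℝ := ∑ c ∈ Fintype.piFinset (fun _ : Fin k => Finset.Icc (-(Q : ℤ)) Q), |lam c|⁻¹ with hS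
  have hS0 : 0 ≤ S := sum_nonneg fun c _ => inv_nonneg.2 (abs_nonneg _)
  obtain ⟨K1, hK1⟩ := exists_nat_ge (k * Q * S)
  refine ⟨K + K1, m0 / 2, by positivity, fun C => ?_⟩
  obtain ⟨N₀, hN₀⟩ := hK ((|C| + 1) ^ L)
  obtain ⟨X₁, hX₁⟩ := exists_nat_ge (4 * (N₀ + 1) / m0)
  refine ⟨X₁ + 1, fun X hX => ?_⟩
  have hXr : 4 * (N₀ + 1) / m0 ≤ (X : ℝ) := hX₁.trans (by exact_mod_cast (by omega : X₁ ≤ X))
  rw [div_le_iff₀ hm0] at hXr
  set M : ℕ := ⌊m0 * X / 2⌋₊ with hM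
  have hM1 : (M : ℝ) ≤ m0 * X / 2 := Nat.floor_le (by positivity)
  have hM2 : m0 * X / 2 < M + 1 := Nat.lt_floor_add_one _
  have hN0 : N₀ ≤ M := by
    have : (N₀ : ℝ) < M + 1 := by nlinarith [Nat.cast_nonneg (α := ℝ) N₀]
    have : N₀ < M + 1 := by exact_mod_cast this
    omega
  have hM3 : m0 * X / 4 ≤ M := by nlinarith [Nat.cast_nonneg (α := ℝ) N₀]
  obtain ⟨P, hP1, hP2, hP3⟩ := hN₀ M hN0
  refine ⟨P.image fun h => (h.2 : ℝ) / lam h.1, card_image_le.trans (by omega), ?_⟩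
  intro N R s hN1 hN2 hR hs hEs
  have hX0 : (0 : ℝ) < X := by
    have : 0 < X := by omega
    exact_mod_cast this
  have hN1r : (X : ℝ) ≤ N := by exact_mod_cast hN1
  have hN2r : (N : ℝ) ≤ κ * X := by exact_mod_cast hN2
  obtain ⟨h, hhP, hh⟩ := hP3 s (fun j => by
    have h1 := abs_le.1 (hs j)
    constructor
    · have h2 : (X : ℝ) * m0 ≤ N * ξ j := mul_le_mul hN1r (hm j) hm0.le (Nat.cast_nonneg _)
      have h3 : (M : ℝ) ≤ s j := by nlinarith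
      exact_mod_cast h3
    · have h2 : (N : ℝ) * ξ j ≤ κ * X * m1 := mul_le_mul hN2r (hm' j) (hξ j).le (by positivity)
      have h3 : (s j : ℝ) ≤ (κ * m1 + m0) * X := by nlinarith
      have h4 : (κ * m1 + m0) * X ≤ κ' * (m0 * X / 4) := by
        rw [div_le_iff₀ hm0] at hκ'
        nlinarith
      have h5 : (κ' : ℝ) * (m0 * X / 4) ≤ κ' * M := mul_le_mul_of_nonneg_left hM3 (Nat.cast_nonneg _)
      have h6 : (s j : ℝ) ≤ κ' * M := by linarith
      exact_mod_cast h6) (by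
    refine hE _ _ s ?_ hEs
    have h1 : (N : ℝ) ≤ L * M := by
      rw [div_le_iff₀ hm0] at hL
      have h2 : (κ : ℝ) * X ≤ L * (m0 * X / 4) := by nlinarith
      have h3 : (L : ℝ) * (m0 * X / 4) ≤ L * M := mul_le_mul_of_nonneg_left hM3 (Nat.cast_nonneg _)
      linarith
    have h2 : N ≤ L * M := by exact_mod_cast h1
    calc C ^ N ≤ |C| ^ N := (le_abs_self _).trans (abs_pow _ _).le
      _ ≤ (|C| + 1) ^ N := pow_le_pow_left₀ (abs_nonneg _) (by linarith) _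
      _ ≤ (|C| + 1) ^ (L * M) := pow_le_pow_right₀ (by linarith [abs_nonneg C]) h2
      _ = ((|C| + 1) ^ L) ^ M := pow_mul _ _ _)
  refine ⟨_, mem_image_of_mem _ hhP, ?_⟩
  obtain ⟨hne, hQ⟩ := hP2 h hhP
  obtain ⟨j0, hj0⟩ : ∃ i, h.1 i ≠ 0 := by
    by_contra h
    push Not at h
    exact hne (funext h)
  have hR0 : 0 ≤ R := (abs_nonneg _).trans (hs j0)
  have hl := hlam0 _ hne
  have h1 : (N : ℝ) - h.2 / lam h.1 = (N * lam h.1 - h.2) / lam h.1 := by field_simp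
  have h2 : (N : ℝ) * lam h.1 - h.2 = ∑ j, (h.1 j : ℝ) * (N * ξ j - s j) := by
    have h3 : (h.2 : ℝ) = ∑ j, (h.1 j : ℝ) * (s j : ℝ) := by
      rw [← hh]
      push_cast
      rfl
    rw [h3, hlam, mul_sum, ← sum_sub_distrib]
    exact sum_congr rfl fun j _ => by ring
  have h3 : |(N : ℝ) * lam h.1 - h.2| ≤ k * Q * R := by
    rw [h2]
    refine (abs_sum_le_sum_abs _ _).trans ?_
    calc ∑ j, |(h.1 j : ℝ) * (N * ξ j - s j)| ≤ ∑ _j : Fin k, (Q : ℝ) * R := by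
          refine sum_le_sum fun j _ => ?_
          rw [abs_mul]
          refine mul_le_mul ?_ ?_ (abs_nonneg _) (Nat.cast_nonneg _)
          · exact_mod_cast hQ j
          · rw [abs_sub_comm]
            exact hs j
      _ = k * Q * R := by
          rw [sum_const, card_univ, Fintype.card_fin, nsmul_eq_mul]
          ring
  have h4 : |lam h.1|⁻¹ ≤ S := by
    rw [hS]
    refine single_le_sum (f := fun c : Fin k → ℤ => |lam c|⁻¹) (fun c _ => inv_nonneg.2 (abs_nonneg _)) ?_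
    rw [Fintype.mem_piFinset]
    exact fun j => mem_Icc.2 (abs_le.1 (hQ j))
  rw [h1, abs_div, div_eq_mul_inv]
  calc |(N : ℝ) * lam h.1 - h.2| * |lam h.1|⁻¹ ≤ (k * Q * R) * S :=
        mul_le_mul h3 h4 (inv_nonneg.2 (abs_nonneg _)) (by positivity)
    _ = (k * Q * S) * R := by ring
    _ ≤ ((K + K1 : ℕ) : ℝ) * R := by
        refine mul_le_mul_of_nonneg_right (hK1.trans ?_) hR0
        push_cast
        linarith [Nat.cast_nonneg (α := ℝ) K]

end Pool.Agent.T9h57.HS
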