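import Pool.Agent.T9h57.HS.Pat

/-!
# The dimension of the space of relations between the values of the patterns of weight `s_1 + ... + s_k + W`
-/

set_option autoImplicit false

namespace Pool.Agent.T9h57.HS

open Finset
open Pool.Agent.Y760.ZG (mz)
open Pool.Agent.Y760.ZF (sti)
open Pool.Agent.X90.DB (Ad ix ex ex_nil ex_ne)
open Pool.Agent.X90.DC
open Pool.Agent.X90.DD
open Pool.Agent.X90.DE (ad na mem_ad card_ad mz_mem WS_eq span_int)

variable {k : ℕ}

/-- the tuples for which two patterns give the same index lie on few hyperplanes -/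
lemma coincide (k W : ℕ) : ∃ K : ℕ, OnFew K 1 {s : Fin k → ℕ | ∃ v ∈ goods k W, ∃ v' ∈ goods k W, v ≠ v' ∧
    ix s v = ix s v'} := by
  classical
  set F : Finset (Lr k) := (range (W + 1)) ×ˢ (Fintype.piFinset fun _ : Fin k => range 2) with hF
  have hmem : ∀ v ∈ goods k W, ∀ u ∈ v, u ∈ F := by
    intro v hv u hu
    obtain ⟨-, h2, h3⟩ := mem_goods.1 hv
    obtain ⟨g1, g2⟩ := letter_le hu
    rw [hF, mem_product, mem_range, Fintype.mem_piFinset]
    refine ⟨by omega, fun j => mem_range.2 ?_⟩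
    have := g2 j
    rw [h3, Pi.one_apply] at this
    omega
  set G : Lr k × Lr k → (Fin k → ℤ) × ℤ := fun q => (fun j => (q.1.2 j : ℤ) - q.2.2 j, (q.2.1 : ℤ) - q.1.1) with hG
  refine ⟨_, ((F ×ˢ F).filter fun q => q.1.2 ≠ q.2.2).image G, le_rfl, ?_, ?_⟩
  · intro h hh
    obtain ⟨q, hq, rfl⟩ := mem_image.1 hh
    rw [mem_filter, mem_product, hF, mem_product, mem_product, Fintype.mem_piFinset, Fintype.mem_piFinset] at hq
    constructor
    · intro h0
      apply hq.2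
      funext j
      have := congrFun h0 j
      simp only [hG, Pi.zero_apply] at this
      omega
    · intro j
      have h1 := mem_range.1 (hq.1.1.2 j)
      have h2 := mem_range.1 (hq.1.2.2 j)
      simp only [hG]
      rw [abs_le]
      constructor <;> push_cast <;> omega
  · rintro s ⟨v, hv, v', hv', hne, he⟩
    obtain ⟨a, ha, b, hb, hab, he2⟩ := exists_ne (fun u : Lr k => u.1 + ∑ j, u.2 j * s j) v v' he hne
    have h2 : ((a.1 : ℤ) + ∑ j, (a.2 j : ℤ) * s j) = b.1 + ∑ j, (b.2 j : ℤ) * s j := by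
      have h1 : a.1 + ∑ j, a.2 j * s j = b.1 + ∑ j, b.2 j * s j := he2
      exact_mod_cast h1
    have h3 : a.2 ≠ b.2 := by
      intro h
      apply hab
      rw [h] at h2
      have h4 : (a.1 : ℤ) = b.1 := by linarith
      exact Prod.ext (by exact_mod_cast h4) h
    refine ⟨G (a, b), mem_image.2 ⟨(a, b), mem_filter.2 ⟨mem_product.2 ⟨hmem v hv a ha, hmem v' hv' b hb⟩, h3⟩, rfl⟩, ?_⟩
    simp only [hG, sub_mul, sum_sub_distrib]
    linarith

/-- **the relations between the values of the patterns** -/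
theorem coreH (k W κ : ℕ) : ∃ (m : ℕ) (ii jj : Fin m → ↥(pats k W)) (cc : Fin m → ℤ),
    (∀ (A : Type) [CommRing A] (Z : List ℕ → A),
      (∀ u v, Ad u → Ad v → Z u * Z v = ((sti u v).map Z).sum) →
      ∀ s : Fin k → ℕ, (∀ j, 2 ≤ s j) → ∀ c : ↥(pats k W) → ℤ, ∑ i, (c i : A) * ex Z (ix s i.1) =
        ∑ j, ((c (ii j) * cc j : ℤ) : A) * (ex Z (fpx (jj j).1) * ex Z (ix s (gpt (jj j).1)))) ∧
    ∃ K Q : ℕ, ∀ C : ℝ, ∃ N0 : ℕ, ∀ N : ℕ, N0 ≤ N → ∀ B : Set (Fin k → ℕ),
      (∀ s ∈ B, (∀ j, N ≤ s j ∧ s j ≤ κ * N) ∧ ∃ c : ↥(pats k W) → ℤ, (∀ i, |(c i : ℝ)| ≤ C ^ N) ∧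
        ∑ i, (c i : ℝ) * mz (ix s i.1) = 0 ∧
        ∃ v ∈ goods k W, ∑ j with gpt (jj j).1 = v, ((c (ii j) * cc j : ℤ) : ℝ) * mz (fpx (jj j).1) ≠ 0) →
        OnFew K Q B := by
  classical
  set e := (pats k W).equivFin with he
  obtain ⟨m, idx, cc, p, v, hpv, hexp, K, Q, hK⟩ := linH k (pats k W).card
    (fun a => (e.symm a).1) (fun a => (mem_pats.1 (e.symm a).2).1) κ
  have hw : ∀ j, (p j).sum + (wt (v j)).1 = W ∧ (wt (v j)).2 = 1 := fun j => wt_eq fun s => by
    rw [(hpv j).2.2.2 s, ix_sum, (mem_pats.1 (e.symm (idx j)).2).2]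
  have hvg : ∀ j, v j ∈ goods k W := fun j => mem_goods.2 ⟨(hpv j).2.2.1, by have := (hw j).1; omega, (hw j).2⟩
  have hfx : ∀ j, fpx (fp (p j) ++ v j) = p j := fun j => fpx_append (hpv j).2.2.1.1 _
  have hgx : ∀ j, gpt (fp (p j) ++ v j) = v j := fun j => gpt_append (hpv j).2.2.1.1 _
  obtain ⟨K', hK'⟩ := coincide k W
  refine ⟨m, fun j => e.symm (idx j), fun j => ⟨fp (p j) ++ v j, mem_pats_append (hvg j) (hpv j).1
    (by have := (hw j).1; omega)⟩, cc, ?_, K + K', max Q 1, ?_⟩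
  · intro A _ Z hZ s hs c
    have h2 := hexp A Z hZ s hs fun a => c (e.symm a)
    simp only [hfx, hgx]
    rw [← e.symm.sum_comp]
    exact h2
  · intro C
    obtain ⟨N0, hN0⟩ := hK C
    refine ⟨N0, fun N hN B hB => ?_⟩
    set S : Set (Fin k → ℕ) := {s : Fin k → ℕ | ∃ v ∈ goods k W, ∃ v' ∈ goods k W, v ≠ v' ∧ ix s v = ix s v'} with hS
    have h2 : OnFew K Q (B \ S) := by
      refine hN0 N hN _ ?_
      rintro s ⟨hs, hsS⟩
      obtain ⟨h3, c, h4, h5, v0, hv0, h6⟩ := hB s hs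
      simp only [hfx, hgx] at h6
      refine ⟨h3, fun a => c (e.symm a), fun a => h4 _, ?_, ix s v0, ?_⟩
      · rw [← h5, ← e.symm.sum_comp]
      · have h7 : (univ.filter fun j => ix s (v j) = ix s v0) = univ.filter fun j => v j = v0 := by
          ext j
          rw [mem_filter, mem_filter]
          constructor
          · rintro ⟨-, h⟩
            refine ⟨mem_univ _, ?_⟩
            by_contra hne
            exact hsS ⟨v j, hvg j, v0, hv0, hne, h⟩
          · rintro ⟨-, h⟩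
            exact ⟨mem_univ _, by rw [h]⟩
        rw [h7]
        exact h6
    refine (h2.union hK').mono le_rfl fun s hs => ?_
    by_cases h : s ∈ S
    · exact Or.inr h
    · exact Or.inl ⟨hs, h⟩

/-! ### Injectivity -/

lemma ofDigits_ofFn (b : ℕ) : ∀ (n : ℕ) (f : Fin n → ℕ), Nat.ofDigits b (List.ofFn f) = ∑ j, f j * b ^ (j : ℕ) := by
  intro n
  induction n with
  | zero => intro f; simp
  | succ n ih =>
    intro f
    rw [List.ofFn_succ, Nat.ofDigits_cons, ih, Fin.sum_univ_succ, mul_sum]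
    simp only [Fin.val_zero, pow_zero, mul_one, Fin.val_succ, Nat.cast_id]
    congr 1
    exact sum_congr rfl fun j _ => by ring

/-- a tuple at which different patterns have different indices -/
def s0 (k W : ℕ) : Fin k → ℕ := fun j => (W + 2) ^ ((j : ℕ) + 1)

lemma s0_ge (k W : ℕ) (j : Fin k) : 2 ≤ s0 k W j := by
  rw [s0]
  calc 2 ≤ (W + 2) ^ 1 := by rw [pow_one]; omega
    _ ≤ _ := Nat.pow_le_pow_right (by omega) (by omega)

lemma s0_inj {W : ℕ} {w w' : List (Lr k)} (hw : w ∈ pats k W) (hw' : w' ∈ pats k W)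
    (h : ix (s0 k W) w = ix (s0 k W) w') : w = w' := by
  by_contra hne
  obtain ⟨a, ha, b, hb, hab, he⟩ := exists_ne (fun u : Lr k => u.1 + ∑ j, u.2 j * s0 k W j) w w' h hne
  apply hab
  have key : ∀ u : Lr k, u.1 + ∑ j, u.2 j * s0 k W j = Nat.ofDigits (W + 2) (u.1 :: List.ofFn u.2) := by
    intro u
    rw [Nat.ofDigits_cons, ofDigits_ofFn, mul_sum]
    congr 1
    refine sum_congr rfl fun j _ => ?_
    rw [s0, pow_succ]
    ring
  have hlt : ∀ w ∈ pats k W, ∀ u ∈ w, ∀ l ∈ (u.1 :: List.ofFn u.2), l < W + 2 := by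
    intro w hw u hu l hl
    have h1 := (mem_pats.1 hw).2
    obtain ⟨g1, g2⟩ := letter_le hu
    rw [h1] at g1 g2
    rcases List.mem_cons.1 hl with rfl | hl
    · simp only at g1
      omega
    · obtain ⟨j, rfl⟩ := (List.mem_ofFn' _ _).1 hl
      have := g2 j
      simp only [Pi.one_apply] at this
      omega
  simp only [key] at he
  have h2 := Nat.ofDigits_inj_of_len_eq (by omega : 1 < W + 2) (by simp) (hlt w hw a ha) (hlt w' hw' b hb) he
  rw [List.cons.injEq] at h2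
  exact Prod.ext h2.1 (List.ofFn_injective h2.2)

/-- the coefficients of the expansion -/
def Pp {W m : ℕ} (ii jj : Fin m → ↥(pats k W)) (cc : Fin m → ℤ) :
    (↥(pats k W) → ℚ) →ₗ[ℚ] (↥(pats k W) → ℚ) where
  toFun c i := ∑ j with jj j = i, c (ii j) * cc j
  map_add' c d := by
    funext i
    simp only [Pi.add_apply, add_mul, sum_add_distrib]
  map_smul' a c := by
    funext i
    simp only [Pi.smul_apply, smul_eq_mul, RingHom.id_apply, mul_sum, mul_assoc]

/-- **the expansion is injective** -/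
lemma Pp_inj {W m : ℕ} (ii jj : Fin m → ↥(pats k W)) (cc : Fin m → ℤ)
    (hexp : ∀ (A : Type) [CommRing A] (Z : List ℕ → A),
      (∀ u v, Ad u → Ad v → Z u * Z v = ((sti u v).map Z).sum) →
      ∀ s : Fin k → ℕ, (∀ j, 2 ≤ s j) → ∀ c : ↥(pats k W) → ℤ, ∑ i, (c i : A) * ex Z (ix s i.1) =
        ∑ j, ((c (ii j) * cc j : ℤ) : A) * (ex Z (fpx (jj j).1) * ex Z (ix s (gpt (jj j).1)))) :
    Function.Injective (Pp ii jj cc) := by
  classical
  rw [← LinearMap.ker_eq_bot, LinearMap.ker_eq_bot']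
  intro c hc
  obtain ⟨Δ, hΔ, a, ha⟩ := Pool.Agent.X90.DA.common_den c
  by_contra hne
  obtain ⟨i0, hi0⟩ : ∃ i, c i ≠ 0 := by
    by_contra h
    push Not at h
    exact hne (funext h)
  have ha0 : a i0 ≠ 0 := by
    intro h0
    have h1 := ha i0
    rw [h0, Int.cast_zero] at h1
    have hΔ' : (Δ : ℚ) ≠ 0 := by exact_mod_cast hΔ
    exact hi0 ((mul_eq_zero.1 h1).resolve_left hΔ')
  have hPa : ∀ i, ∑ j with jj j = i, a (ii j) * cc j = 0 := by
    intro i
    have h1 : ∑ j with jj j = i, c (ii j) * cc j = 0 := congrFun hc i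
    have h2 : ((∑ j with jj j = i, a (ii j) * cc j : ℤ) : ℚ) = Δ *
        ∑ j with jj j = i, c (ii j) * cc j := by
      push_cast
      rw [mul_sum]
      exact sum_congr rfl fun j _ => by rw [← ha (ii j)]; ring
    rw [h1, mul_zero] at h2
    exact_mod_cast h2
  set s := s0 k W with hs
  have hinj : Function.Injective fun i : ↥(pats k W) => ix s i.1 := fun i i' h =>
    Subtype.ext (s0_inj i.2 i'.2 h)
  have hpos : ∀ i : ↥(pats k W), ∀ b ∈ ix s i.1, 1 ≤ b := by
    intro i b hb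
    rw [ix, List.mem_map] at hb
    obtain ⟨u, hu, rfl⟩ := hb
    rcases (mem_pats.1 i.2).1.2 u hu with h | h
    · obtain ⟨j, hj⟩ : ∃ j, u.2 j ≠ 0 := by
        by_contra hcon
        push Not at hcon
        exact h (funext hcon)
      have h1 := single_le_sum (f := fun j => u.2 j * s j) (fun _ _ => Nat.zero_le _) (mem_univ j)
      have h2 : 1 ≤ u.2 j * s j := Nat.mul_pos (Nat.pos_of_ne_zero hj) (le_trans (by norm_num) (s0_ge k W j))
      omega
    · omega
  obtain ⟨ℓ, hℓ⟩ : ∃ ℓ : ℕ, ∀ i : ↥(pats k W), (ix s i.1).length ≤ ℓ :=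
    ⟨∑ i : ↥(pats k W), (ix s i.1).length, fun i =>
      single_le_sum (f := fun i : ↥(pats k W) => (ix s i.1).length)
      (fun _ _ => Nat.zero_le _) (mem_univ i)⟩
  set d : List ℕ → ℤ := fun u => ∑ i with ix s i.1 = u, a i with hd
  have hdi : ∀ i : ↥(pats k W), d (ix s i.1) = a i := by
    intro i
    have h1 : (univ.filter fun i' : ↥(pats k W) => ix s i'.1 = ix s i.1) = {i} := by
      ext i'
      rw [mem_filter, mem_singleton]
      exact ⟨fun h => hinj h.2, fun h => ⟨mem_univ _, by rw [h]⟩⟩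
    simp only [hd]
    rw [h1, sum_singleton]
  obtain ⟨ts, hts⟩ := words_indep ℓ (univ.image fun i : ↥(pats k W) => ix s i.1) d (fun x hx => by
      rw [mem_image] at hx
      obtain ⟨i, -, rfl⟩ := hx
      exact hℓ i) (fun x hx b hb => by
      rw [mem_image] at hx
      obtain ⟨i, -, rfl⟩ := hx
      exact hpos i b hb)
    ⟨ix s i0.1, mem_image_of_mem _ (mem_univ _), by rw [hdi]; exact ha0⟩
  apply hts
  rw [sum_image fun i _ j _ h => hinj h]
  simp only [hdi]
  have h1 := hexp ℂ (Zt ts) (fun u v _ _ => Zt_mul ts u v) s (fun j => s0_ge k W j) a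
  simp only [ex_Zt] at h1
  rw [h1, ← sum_fiberwise_of_maps_to (s := univ) (t := univ) (g := jj) (fun j _ => mem_univ _)]
  refine sum_eq_zero fun i _ => ?_
  have h2 : ∑ j with jj j = i, ((a (ii j) * cc j : ℤ) : ℂ) *
      (Zt ts (fpx (jj j).1) * Zt ts (ix s (gpt (jj j).1))) =
      ((∑ j with jj j = i, a (ii j) * cc j : ℤ) : ℂ) *
        (Zt ts (fpx i.1) * Zt ts (ix s (gpt i.1))) := by
    push_cast
    rw [sum_mul]
    refine sum_congr rfl fun j hj => ?_
    rw [mem_filter] at hj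
    rw [hj.2]
  rw [h2, hPa i, Int.cast_zero, zero_mul]

/-! ### The spaces of relations -/

/-- the space spanned by the relations of height at most `H` between the values of the patterns of weight
`s_1 + ... + s_k + W` at `s` -/
noncomputable def relP (k W : ℕ) (s : Fin k → ℕ) (H : ℝ) : Submodule ℚ (↥(pats k W) → ℚ) :=
  Submodule.span ℚ {c | ∃ z : ↥(pats k W) → ℤ, (∀ i, c i = z i ∧ |(z i : ℝ)| ≤ H) ∧
    ∑ i, (z i : ℝ) * mz (ix s i.1) = 0}

/-- the space of the identities between the values of the patterns -/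
noncomputable def idents (k W : ℕ) : Submodule ℚ (↥(pats k W) → ℚ) where
  carrier := {c | ∀ s : Fin k → ℕ, (∀ j, 2 ≤ s j) → ∑ i, (c i : ℝ) * mz (ix s i.1) = 0}
  zero_mem' := by
    intro s _
    simp
  add_mem' := by
    intro c d hc hd s hs
    have h1 := hc s hs
    have h2 := hd s hs
    simp only [Pi.add_apply, Rat.cast_add, add_mul, sum_add_distrib]
    rw [h1, h2, add_zero]
  smul_mem' := by
    intro a c hc s hs
    have h1 := hc s hs
    simp only [Pi.smul_apply, smul_eq_mul, Rat.cast_mul, mul_assoc]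
    rw [← mul_sum, h1, mul_zero]

lemma mem_idents {k W : ℕ} {c : ↥(pats k W) → ℚ} : c ∈ idents k W ↔
    ∀ s : Fin k → ℕ, (∀ j, 2 ≤ s j) → ∑ i, (c i : ℝ) * mz (ix s i.1) = 0 := Iff.rfl

/-- **the space of relations, off few hyperplanes** -/
theorem mainR (k W κ : ℕ) : ∃ R : Submodule ℚ (↥(pats k W) → ℚ),
    Module.finrank ℚ R + ∑ n ∈ range (W + 1), gk k (W - n) * Module.finrank ℚ (WS n) =
      ∑ n ∈ range (W + 1), gk k (W - n) * na n ∧ R ≤ idents k W ∧
    ∃ K Q : ℕ, ∀ C : ℝ, 1 < C → ∃ N0 : ℕ, ∀ N : ℕ, N0 ≤ N →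
      OnFew K Q {s : Fin k → ℕ | (∀ j, N ≤ s j ∧ s j ≤ κ * N) ∧ relP k W s (C ^ N) ≠ R} := by
  classical
  obtain ⟨m, ii, jj, cc, hexp, K, Q, hK⟩ := coreH k W κ
  set P := Pp ii jj cc with hP
  have hPinj : Function.Injective P := Pp_inj ii jj cc hexp
  set R := LinearMap.ker ((evp k W).comp P) with hR
  have hval : ∀ (c : ↥(pats k W) → ℚ) (v : List (Lr k)),
      ∑ i : ↥(pats k W) with gpt i.1 = v, (P c i : ℝ) * mz (fpx i.1) =
      ∑ j with gpt (jj j).1 = v, ((c (ii j) * cc j : ℚ) : ℝ) * mz (fpx (jj j).1) := by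
    intro c v
    rw [← sum_fiberwise_of_maps_to (s := univ.filter fun j => gpt (jj j).1 = v)
      (t := univ.filter fun i : ↥(pats k W) => gpt i.1 = v) (g := jj) (fun j hj => by
        rw [mem_filter] at hj ⊢
        exact ⟨mem_univ _, hj.2⟩)]
    refine sum_congr rfl fun i hi => ?_
    rw [mem_filter] at hi
    rw [filter_filter]
    have h1 : (univ.filter fun j => gpt (jj j).1 = v ∧ jj j = i) = univ.filter fun j => jj j = i := by
      ext j
      rw [mem_filter, mem_filter]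
      constructor
      · rintro ⟨g1, -, g2⟩
        exact ⟨g1, g2⟩
      · rintro ⟨g1, g2⟩
        refine ⟨g1, ?_, g2⟩
        rw [g2]
        exact hi.2
    rw [h1]
    have h2 : P c i = ∑ j with jj j = i, c (ii j) * cc j := rfl
    rw [h2]
    push_cast
    rw [sum_mul]
    refine sum_congr rfl fun j hj => ?_
    rw [mem_filter] at hj
    rw [hj.2]
  have hmemR : ∀ c : ↥(pats k W) → ℚ, c ∈ R ↔ ∀ v ∈ goods k W,
      ∑ j with gpt (jj j).1 = v, ((c (ii j) * cc j : ℚ) : ℝ) * mz (fpx (jj j).1) = 0 := by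
    intro c
    rw [hR, LinearMap.mem_ker]
    constructor
    · intro h v hv
      have h1 := congrArg Subtype.val (congrFun h ⟨v, hv⟩)
      have h2 : ∑ i : ↥(pats k W) with gpt i.1 = v, (P c) i • mz (fpx i.1) = 0 := h1
      rw [← hval, ← h2]
      exact sum_congr rfl fun i _ => by rw [Rat.smul_def]
    · intro h
      funext x
      ext
      show ∑ i : ↥(pats k W) with gpt i.1 = x.1, (P c) i • mz (fpx i.1) = 0
      rw [← h x.1 x.2, ← hval]
      exact sum_congr rfl fun i _ => by rw [Rat.smul_def]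
  -- the elements of `R` are identities
  have hRz : ∀ (c : ↥(pats k W) → ℚ) (z : ↥(pats k W) → ℤ), (∀ i, c i = z i) → c ∈ R → ∀ s : Fin k → ℕ,
      (∀ j, 2 ≤ s j) → ∑ i, (z i : ℝ) * mz (ix s i.1) = 0 := by
    intro c z hz1 hcR s hs
    have h1 := hexp ℝ mz mz_stuffle s hs z
    have hexR : ∀ u, ex mz u = mz u := by
      intro u
      by_cases h : u = []
      · rw [h, ex_nil, mz]
      · rw [ex_ne _ h]
    simp only [hexR] at h1
    rw [h1]
    rw [hmemR] at hcR
    rw [← sum_fiberwise_of_maps_to (s := univ) (t := goods k W) (g := fun j => gpt (jj j).1)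
      (fun j _ => (pats_split (jj j).2).2.1)]
    refine sum_eq_zero fun v hv => ?_
    have h3 : ∑ j with gpt (jj j).1 = v, ((z (ii j) * cc j : ℤ) : ℝ) *
        (mz (fpx (jj j).1) * mz (ix s (gpt (jj j).1))) =
        (∑ j with gpt (jj j).1 = v, ((c (ii j) * cc j : ℚ) : ℝ) * mz (fpx (jj j).1)) * mz (ix s v) := by
      rw [sum_mul]
      refine sum_congr rfl fun j hj => ?_
      rw [mem_filter] at hj
      rw [hj.2, hz1]
      push_cast
      ring
    rw [h3, hcR v hv, zero_mul]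
  refine ⟨R, rank_pats P hPinj, fun c hc => ?_, K, Q, fun C hC => ?_⟩
  · rw [mem_idents]
    intro s hs
    obtain ⟨Δ, hΔ, a, ha⟩ := Pool.Agent.X90.DA.common_den c
    have h1 := hRz ((Δ : ℚ) • c) a (fun i => by
      rw [Pi.smul_apply, smul_eq_mul]
      exact ha i) (R.smul_mem _ hc) s hs
    have h2 : ∑ i, (a i : ℝ) * mz (ix s i.1) = (Δ : ℝ) * ∑ i, (c i : ℝ) * mz (ix s i.1) := by
      rw [mul_sum]
      refine sum_congr rfl fun i _ => ?_
      have h3 : (((Δ : ℚ) * c i : ℚ) : ℝ) = ((a i : ℚ) : ℝ) := by rw [ha i]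
      push_cast at h3
      rw [← h3]
      ring
    rw [h2] at h1
    exact (mul_eq_zero.1 h1).resolve_left (by exact_mod_cast hΔ)
  · obtain ⟨H0, hH0, hspan⟩ := span_int R
    obtain ⟨N1, hN1⟩ : ∃ N1 : ℕ, ∀ n, N1 ≤ n → H0 ≤ C ^ n := by
      have h1 := (tendsto_pow_atTop_atTop_of_one_lt hC).eventually_ge_atTop H0
      rw [Filter.eventually_atTop] at h1
      exact h1
    obtain ⟨N0, hN0⟩ := hK C
    refine ⟨N0 + N1 + 2, fun N hN => hN0 N (by omega) _ ?_⟩
    rintro s ⟨hs, hs3⟩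
    refine ⟨hs, ?_⟩
    by_contra hcon
    push Not at hcon
    apply hs3
    refine le_antisymm ?_ ?_
    · rw [relP, Submodule.span_le]
      rintro c ⟨z, hz, hrel⟩
      rw [SetLike.mem_coe, hmemR]
      intro v hv
      rw [← hcon z (fun i => (hz i).2) hrel v hv]
      refine sum_congr rfl fun j _ => ?_
      rw [(hz (ii j)).1]
      push_cast
      rfl
    · refine hspan.trans ?_
      rw [Submodule.span_le]
      rintro c ⟨hcR, hcz⟩
      have hH : H0 ≤ C ^ N := hN1 _ (by omega)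
      choose z hz1 hz2 using hcz
      exact Submodule.subset_span ⟨z, fun i => ⟨hz1 i, (hz2 i).trans hH⟩,
        hRz c z hz1 hcR s fun j => le_trans (by omega) (hs j).1⟩

/-- there is a tuple off few hyperplanes -/
lemma exists_off {k K Q N : ℕ} (hk : 0 < k) (hN : K ≤ N) {B : Set (Fin k → ℕ)} (hB : OnFew K Q B) :
    ∃ s : Fin k → ℕ, (∀ j, N ≤ s j ∧ s j ≤ 2 * N) ∧ s ∉ B := by
  classical
  by_contra hcon
  push Not at hcon
  obtain ⟨P, h1, h2, h3⟩ := hB
  have hsub : (Fintype.piFinset fun _ : Fin k => Finset.Icc N (2 * N)) ⊆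
      P.biUnion fun h => (Fintype.piFinset fun _ : Fin k => Finset.Icc N (2 * N)).filter fun s =>
        ∑ j, h.1 j * (s j : ℤ) = h.2 := by
    intro s hs
    have hs' : ∀ j, N ≤ s j ∧ s j ≤ 2 * N := fun j => mem_Icc.1 (Fintype.mem_piFinset.1 hs j)
    obtain ⟨h, hh, he⟩ := h3 s (hcon s hs')
    rw [mem_biUnion]
    exact ⟨h, hh, mem_filter.2 ⟨hs, he⟩⟩
  have h4 := (card_le_card hsub).trans (card_biUnion_le.trans ((sum_le_card_nsmul _ _
    ((2 * N + 1 - N) ^ (k - 1)) fun h hh =>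
      Pool.Agent.X90.DB.card_plane N (2 * N) h.1 (h2 h hh).1 h.2)))
  rw [Fintype.card_piFinset, prod_const, card_univ, Fintype.card_fin, Nat.card_Icc, smul_eq_mul] at h4
  have h5 : 2 * N + 1 - N = N + 1 := by omega
  rw [h5] at h4
  obtain ⟨j, rfl⟩ : ∃ j, k = j + 1 := ⟨k - 1, by omega⟩
  rw [pow_succ', Nat.add_sub_cancel] at h4
  have h6 : N + 1 ≤ P.card := Nat.le_of_mul_le_mul_right h4 (by positivity)
  omega

/-- **the space of relations is the space of identities, off few hyperplanes** -/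
theorem structH (k W : ℕ) (hk : 0 < k) :
    (Module.finrank ℚ (idents k W) + ∑ n ∈ range (W + 1), gk k (W - n) * Module.finrank ℚ (WS n) =
      ∑ n ∈ range (W + 1), gk k (W - n) * na n) ∧
    ∀ κ : ℕ, ∃ K Q : ℕ, ∀ C : ℝ, 1 < C → ∃ N0 : ℕ, ∀ N : ℕ, N0 ≤ N →
      OnFew K Q {s : Fin k → ℕ | (∀ j, N ≤ s j ∧ s j ≤ κ * N) ∧ relP k W s (C ^ N) ≠ idents k W} := by
  classical
  have key : ∀ κ : ℕ, 2 ≤ κ →
      (Module.finrank ℚ (idents k W) + ∑ n ∈ range (W + 1), gk k (W - n) * Module.finrank ℚ (WS n) =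
        ∑ n ∈ range (W + 1), gk k (W - n) * na n) ∧
      ∃ K Q : ℕ, ∀ C : ℝ, 1 < C → ∃ N0 : ℕ, ∀ N : ℕ, N0 ≤ N →
        OnFew K Q {s : Fin k → ℕ | (∀ j, N ≤ s j ∧ s j ≤ κ * N) ∧ relP k W s (C ^ N) ≠ idents k W} := by
    intro κ hκ
    obtain ⟨R, h1, h2, K, Q, hK⟩ := mainR k W κ
    have h3 : idents k W ≤ R := by
      intro c hc
      rw [mem_idents] at hc
      obtain ⟨Δ, hΔ, a, ha⟩ := Pool.Agent.X90.DA.common_den c
      obtain ⟨N0, hN0⟩ := hK 2 one_lt_two
      obtain ⟨N1, hN1⟩ := exists_nat_ge (∑ i, |(a i : ℝ)|)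
      obtain ⟨s, hs, hsB⟩ := exists_off hk (by omega : K ≤ N0 + K + N1 + 2)
        (hN0 (N0 + K + N1 + 2) (by omega))
      have hs' : ∀ j, (N0 + K + N1 + 2) ≤ s j ∧ s j ≤ κ * (N0 + K + N1 + 2) := fun j =>
        ⟨(hs j).1, (hs j).2.trans (Nat.mul_le_mul_right _ hκ)⟩
      have h4 : relP k W s ((2 : ℝ) ^ (N0 + K + N1 + 2)) = R := by
        by_contra h
        exact hsB ⟨hs', h⟩
      have h5 : ((Δ : ℚ) • c) ∈ R := by
        rw [← h4]
        refine Submodule.subset_span ⟨a, fun i => ⟨?_, ?_⟩, ?_⟩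
        · rw [Pi.smul_apply, smul_eq_mul]
          exact ha i
        · have h6 : |(a i : ℝ)| ≤ ∑ i, |(a i : ℝ)| :=
            single_le_sum (f := fun i => |(a i : ℝ)|) (fun _ _ => abs_nonneg _) (mem_univ i)
          have h7 : (N1 : ℝ) ≤ (2 : ℝ) ^ (N0 + K + N1 + 2) := by
            have h8 : N1 ≤ 2 ^ (N0 + K + N1 + 2) :=
              (Nat.lt_two_pow_self).le.trans (Nat.pow_le_pow_right (by norm_num) (by omega))
            exact_mod_cast h8
          exact h6.trans (hN1.trans h7)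
        · have h6 := hc s fun j => le_trans (by omega) (hs j).1
          have h7 : ∑ i, (a i : ℝ) * mz (ix s i.1) = (Δ : ℝ) * ∑ i, (c i : ℝ) * mz (ix s i.1) := by
            rw [mul_sum]
            refine sum_congr rfl fun i _ => ?_
            have h8 : (((Δ : ℚ) * c i : ℚ) : ℝ) = ((a i : ℚ) : ℝ) := by rw [ha i]
            push_cast at h8
            rw [← h8]
            ring
          rw [h7, h6, mul_zero]
      have hΔ' : (Δ : ℚ) ≠ 0 := by exact_mod_cast hΔ
      have h6 := R.smul_mem (Δ : ℚ)⁻¹ h5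
      rw [smul_smul, inv_mul_cancel₀ hΔ', one_smul] at h6
      exact h6
    have h4 : R = idents k W := le_antisymm h2 h3
    rw [h4] at h1 hK
    exact ⟨h1, K, Q, hK⟩
  refine ⟨(key 2 le_rfl).1, fun κ => ?_⟩
  obtain ⟨K, Q, hK⟩ := (key (max κ 2) (le_max_right _ _)).2
  refine ⟨K, Q, fun C hC => ?_⟩
  obtain ⟨N0, hN0⟩ := hK C hC
  refine ⟨N0, fun N hN => (hN0 N hN).mono le_rfl ?_⟩
  rintro s ⟨h1, h2⟩
  exact ⟨fun j => ⟨(h1 j).1, (h1 j).2.trans (Nat.mul_le_mul_right _ (le_max_left _ _))⟩, h2⟩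

end Pool.Agent.T9h57.HS
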