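import Pool.Agent.T9h57.HS.Lin
import Pool.Agent.X90.DE.Main

/-!
# The patterns of weight `s_1 + ... + s_k + W`
-/

set_option autoImplicit false

namespace Pool.Agent.T9h57.HS

open Finset
open Pool.Agent.Y760.ZG (mz)
open Pool.Agent.Y760.ZF (sti)
open Pool.Agent.X90.DB (Ad ix ex ex_nil ex_ne)
open Pool.Agent.X90.DC
open Pool.Agent.X90.DD
open Pool.Agent.X90.DE (ad na mem_ad card_ad mz_mem WS_eq)

variable {k : ℕ}

/-- the weight of a pattern: the constant part and the coefficients of the variables -/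
def wt (w : List (Lr k)) : ℕ × (Fin k → ℕ) := ((w.map Prod.fst).sum, (w.map Prod.snd).sum)

lemma wt_nil : wt ([] : List (Lr k)) = (0, 0) := rfl

lemma wt_cons (u : Lr k) (w : List (Lr k)) : wt (u :: w) = (u.1 + (wt w).1, u.2 + (wt w).2) := by
  simp [wt]

lemma wt_append (w w' : List (Lr k)) : wt (w ++ w') = ((wt w).1 + (wt w').1, (wt w).2 + (wt w').2) := by
  simp [wt]

lemma wt_fp (p : List ℕ) : wt (fp p : List (Lr k)) = (p.sum, 0) := by
  induction p with
  | nil => simp [fp, wt]
  | cons b p ih =>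
    have h1 : (fp (b :: p) : List (Lr k)) = (b, 0) :: fp p := rfl
    rw [h1, wt_cons, ih]
    simp

lemma ix_sum (s : Fin k → ℕ) (w : List (Lr k)) : (ix s w).sum = (wt w).1 + ∑ j, (wt w).2 j * s j := by
  induction w with
  | nil => simp [ix, wt]
  | cons u w ih =>
    have h1 : ix s (u :: w) = (u.1 + ∑ j, u.2 j * s j) :: ix s w := rfl
    rw [h1, List.sum_cons, ih, wt_cons]
    simp only [Pi.add_apply, add_mul, sum_add_distrib]
    ring

/-- the weight is determined by the weights of the indices -/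
lemma wt_eq {w : List (Lr k)} {A W : ℕ} {e : Fin k → ℕ} (h : ∀ s : Fin k → ℕ, A + (ix s w).sum = W + ∑ j, e j * s j) :
    A + (wt w).1 = W ∧ (wt w).2 = e := by
  have h0 := h 0
  rw [ix_sum] at h0
  simp only [Pi.zero_apply, mul_zero, sum_const_zero, add_zero] at h0
  refine ⟨h0, ?_⟩
  funext i
  have h1 := h (Pi.single i 1)
  rw [ix_sum] at h1
  have h2 : ∀ f : Fin k → ℕ, ∑ j, f j * (Pi.single i 1 : Fin k → ℕ) j = f i := by
    intro f
    rw [sum_eq_single i]
    · rw [Pi.single_eq_same, mul_one]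
    · intro j _ hj
      rw [Pi.single_eq_of_ne hj, mul_zero]
    · intro h
      exact absurd (mem_univ _) h
  rw [h2, h2] at h1
  omega

lemma letter_le {w : List (Lr k)} {u : Lr k} (hu : u ∈ w) : u.1 ≤ (wt w).1 ∧ ∀ j, u.2 j ≤ (wt w).2 j := by
  induction w with
  | nil => exact absurd hu List.not_mem_nil
  | cons a w ih =>
    rw [wt_cons]
    rcases List.mem_cons.1 hu with rfl | hu
    · exact ⟨Nat.le_add_right _ _, fun j => Nat.le_add_right _ _⟩
    · obtain ⟨h1, h2⟩ := ih hu
      refine ⟨h1.trans (Nat.le_add_left _ _), fun j => (h2 j).trans ?_⟩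
      simp only [Pi.add_apply]
      exact Nat.le_add_left _ _

lemma length_le {w : List (Lr k)} (hw : ∀ u ∈ w, u.2 ≠ 0 ∨ 1 ≤ u.1) : w.length ≤ (wt w).1 + ∑ j, (wt w).2 j := by
  induction w with
  | nil => simp
  | cons a w ih =>
    have h1 := ih fun u hu => hw u (List.mem_cons_of_mem _ hu)
    rw [wt_cons, List.length_cons]
    simp only [Pi.add_apply, sum_add_distrib]
    have h2 : 1 ≤ a.1 + ∑ j, a.2 j := by
      rcases hw a List.mem_cons_self with h | h
      · obtain ⟨j, hj⟩ : ∃ j, a.2 j ≠ 0 := by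
          by_contra hcon
          push Not at hcon
          exact h (funext hcon)
        have h3 := single_le_sum (f := fun j => a.2 j) (fun _ _ => Nat.zero_le _) (mem_univ j)
        omega
      · omega
    omega

/-- the set of the lists with bounded weight is finite -/
lemma finite_wt (W : ℕ) : {w : List (Lr k) | (∀ u ∈ w, u.2 ≠ 0 ∨ 1 ≤ u.1) ∧ (wt w).1 ≤ W ∧ (wt w).2 = 1}.Finite := by
  classical
  set F : Finset (Lr k) := (range (W + 1)) ×ˢ (Fintype.piFinset fun _ : Fin k => range 2) with hF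
  have h1 : {w : List (Lr k) | (∀ u ∈ w, u.2 ≠ 0 ∨ 1 ≤ u.1) ∧ (wt w).1 ≤ W ∧ (wt w).2 = 1} ⊆
      (fun l : List ↥F => l.map Subtype.val) '' {l | l.length ≤ W + k} := by
    rintro w ⟨h1, h2, h3⟩
    have h4 : ∀ u ∈ w, u ∈ F := by
      intro u hu
      obtain ⟨g1, g2⟩ := letter_le hu
      rw [hF, mem_product, mem_range, Fintype.mem_piFinset]
      refine ⟨by omega, fun j => mem_range.2 ?_⟩
      have := g2 j
      rw [h3, Pi.one_apply] at this
      omega
    refine ⟨w.attach.map fun u => ⟨u.1, h4 u.1 u.2⟩, ?_, ?_⟩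
    · rw [Set.mem_setOf_eq, List.length_map, List.length_attach]
      refine (length_le h1).trans ?_
      rw [h3]
      simp only [Pi.one_apply, sum_const, card_univ, Fintype.card_fin, smul_eq_mul, mul_one]
      omega
    · simp only [List.map_map]
      conv_rhs => rw [← List.attach_map_subtype_val w]
      exact List.map_congr_left fun u _ => rfl
  exact ((List.finite_length_le _ _).image _).subset h1

/-- the patterns of weight `s_1 + ... + s_k + W` -/
noncomputable def pats (k W : ℕ) : Finset (List (Lr k)) :=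
  ((finite_wt (k := k) W).subset (t := {w | Ge w ∧ wt w = (W, 1)}) fun w hw =>
    ⟨hw.1.2, by rw [hw.2], by rw [hw.2]⟩).toFinset

lemma mem_pats {W : ℕ} {w : List (Lr k)} : w ∈ pats k W ↔ Ge w ∧ wt w = (W, 1) := by
  rw [pats, Set.Finite.mem_toFinset]
  rfl

/-- the patterns of weight at most `s_1 + ... + s_k + W` whose first letter is not constant -/
noncomputable def goods (k W : ℕ) : Finset (List (Lr k)) :=
  ((finite_wt (k := k) W).subset (t := {w | Gd w ∧ (wt w).1 ≤ W ∧ (wt w).2 = 1}) fun w hw =>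
    ⟨hw.1.2, hw.2⟩).toFinset

lemma mem_goods {W : ℕ} {w : List (Lr k)} : w ∈ goods k W ↔ Gd w ∧ (wt w).1 ≤ W ∧ (wt w).2 = 1 := by
  rw [goods, Set.Finite.mem_toFinset]
  rfl

/-- the number of the patterns of weight `s_1 + ... + s_k + m` whose first letter is not constant -/
noncomputable def gk (k m : ℕ) : ℕ := {w : List (Lr k) | Gd w ∧ wt w = (m, 1)}.ncard

lemma gk_eq (k m W : ℕ) (hm : m ≤ W) : gk k m = ((goods k W).filter fun w => (wt w).1 = m).card := by
  classical
  rw [gk, ← Set.ncard_coe_finset]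
  congr 1
  ext w
  rw [Set.mem_setOf_eq, mem_coe, mem_filter, mem_goods, Prod.ext_iff]
  constructor
  · rintro ⟨h1, h2, h3⟩
    exact ⟨⟨h1, by simp only at h2; omega, h3⟩, h2⟩
  · rintro ⟨⟨h1, h2, h3⟩, h4⟩
    exact ⟨h1, h4, h3⟩

lemma sum_goods (k W : ℕ) (f : ℕ → ℕ) :
    ∑ v ∈ goods k W, f (W - (wt v).1) = ∑ n ∈ range (W + 1), gk k (W - n) * f n := by
  classical
  rw [← sum_fiberwise_of_maps_to (s := goods k W) (t := range (W + 1)) (g := fun v => W - (wt v).1)
    (fun v _ => mem_range.2 (by omega))]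
  refine sum_congr rfl fun n hn => ?_
  rw [mem_range] at hn
  rw [gk_eq k (W - n) W (Nat.sub_le _ _), ← smul_eq_mul, ← sum_const]
  refine sum_congr ?_ fun v hv => ?_
  · ext v
    rw [mem_filter, mem_filter]
    constructor
    · rintro ⟨h1, h2⟩
      have := (mem_goods.1 h1).2.1
      exact ⟨h1, by omega⟩
    · rintro ⟨h1, h2⟩
      have := (mem_goods.1 h1).2.1
      exact ⟨h1, by omega⟩
  · rw [mem_filter] at hv
    have := (mem_goods.1 hv.1).2.1
    congr 1
    omega

/-- the part after the constant letters in front -/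
def gpt (w : List (Lr k)) : List (Lr k) := w.drop (fpx w).length

lemma fpx_append {v : List (Lr k)} (hv : ∀ u ∈ v.head?, u.2 ≠ 0) (p : List ℕ) : fpx (fp p ++ v) = p := by
  induction p with
  | nil =>
    show fpx v = []
    cases v with
    | nil => rw [fpx]
    | cons u v =>
      rw [fpx, if_neg (hv u (by simp))]
  | cons b p ih =>
    show fpx ((b, 0) :: (fp p ++ v)) = _
    rw [fpx, if_pos rfl, ih]

lemma gpt_append {v : List (Lr k)} (hv : ∀ u ∈ v.head?, u.2 ≠ 0) (p : List ℕ) : gpt (fp p ++ v) = v := by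
  have h1 : (fp p : List (Lr k)).length = p.length := by rw [fp, List.length_map]
  rw [gpt, fpx_append hv, ← h1, List.drop_left]

lemma fp_gpt {w : List (Lr k)} (hw : ∀ u ∈ w, u.2 ≠ 0 ∨ 1 ≤ u.1) : w = fp (fpx w) ++ gpt w ∧ Gd (gpt w) := by
  obtain ⟨v, h1, h2⟩ := exists_prefix2 w hw
  have h3 : gpt w = v := by
    rw [h2]
    exact gpt_append h1.1 _
  rw [h3]
  exact ⟨h2, h1⟩

lemma pats_split {W : ℕ} {w : List (Lr k)} (hw : w ∈ pats k W) :
    (fpx w = [] ∨ Ad (fpx w)) ∧ gpt w ∈ goods k W ∧ (fpx w).sum = W - (wt (gpt w)).1 ∧ w = fp (fpx w) ++ gpt w := by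
  obtain ⟨h1, h2⟩ := mem_pats.1 hw
  obtain ⟨h3, h4⟩ := fp_gpt h1.2
  have h5 : Ge (fp (fpx w) ++ gpt w) := by
    rw [← h3]
    exact h1
  have h6 := wt_append (fp (fpx w)) (gpt w)
  rw [← h3, h2, wt_fp, Prod.ext_iff] at h6
  simp only [zero_add] at h6
  refine ⟨ge_prefix h5, mem_goods.2 ⟨h4, by omega, h6.2.symm⟩, by omega, h3⟩

lemma gd_ge {v : List (Lr k)} (hv : Gd v) {p : List ℕ} (hp : p = [] ∨ Ad p) : Ge (fp p ++ v) := by
  constructor
  · intro u hu
    cases p with
    | nil => exact Or.inl (hv.1 u hu)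
    | cons b p =>
      have : u = (b, 0) := by
        simp only [fp, List.map_cons, List.cons_append, List.head?_cons, Option.mem_some_iff] at hu
        exact hu.symm
      rw [this]
      exact Or.inr (hp.resolve_left (List.cons_ne_nil _ _)).1
  · intro u hu
    rw [List.mem_append, fp, List.mem_map] at hu
    rcases hu with ⟨b, hb, rfl⟩ | hu
    · right
      rcases hp with rfl | h1
      · exact absurd hb List.not_mem_nil
      · exact h1.pos b hb
    · exact hv.2 u hu

lemma mem_pats_append {W : ℕ} {v : List (Lr k)} (hv : v ∈ goods k W) {p : List ℕ} (hp : p = [] ∨ Ad p)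
    (hs : p.sum = W - (wt v).1) : fp p ++ v ∈ pats k W := by
  obtain ⟨h1, h2, h3⟩ := mem_goods.1 hv
  refine mem_pats.2 ⟨gd_ge h1 hp, ?_⟩
  rw [wt_append, wt_fp, h3, zero_add, hs]
  congr 1
  omega

/-- **the number of the patterns** -/
lemma card_pats (k W : ℕ) : (pats k W).card = ∑ n ∈ range (W + 1), gk k (W - n) * na n := by
  classical
  rw [← sum_goods k W na, card_eq_sum_card_fiberwise (f := gpt) (t := goods k W)
    (fun w hw => (pats_split hw).2.1)]
  refine sum_congr rfl fun v hv => ?_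
  rw [← card_ad]
  have hg := (mem_goods.1 hv).1.1
  refine card_bij (fun w _ => fpx w) ?_ ?_ ?_
  · intro w hw
    rw [mem_filter] at hw
    obtain ⟨h1, h2, h3, -⟩ := pats_split hw.1
    rw [mem_ad]
    rw [hw.2] at h3
    exact ⟨h1, h3⟩
  · intro w hw w' hw' h
    rw [mem_filter] at hw hw'
    rw [(pats_split hw.1).2.2.2, (pats_split hw'.1).2.2.2, h, hw.2, hw'.2]
  · intro p hp
    rw [mem_ad] at hp
    refine ⟨fp p ++ v, mem_filter.2 ⟨mem_pats_append hv hp.1 hp.2, gpt_append hg p⟩, fpx_append hg p⟩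

/-! ### The values of the coefficients -/

/-- the values of the coefficients -/
noncomputable def evp (k W : ℕ) : (↥(pats k W) → ℚ) →ₗ[ℚ] ((v : ↥(goods k W)) → ↥(WS (W - (wt v.1).1))) where
  toFun g v := ⟨∑ i with gpt i.1 = v.1, g i • mz (fpx i.1),
    Submodule.sum_mem _ fun i hi => Submodule.smul_mem _ _
      (mz_mem (pats_split i.2).1 (by rw [(pats_split i.2).2.2.1, (mem_filter.1 hi).2]))⟩
  map_add' c d := by
    funext x
    ext
    simp only [Pi.add_apply, add_smul, sum_add_distrib, Submodule.coe_add]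
  map_smul' a c := by
    funext x
    ext
    simp only [Pi.smul_apply, smul_eq_mul, RingHom.id_apply, smul_sum, mul_smul,
      SetLike.val_smul]

lemma evp_surj (k W : ℕ) : Function.Surjective (evp k W) := by
  classical
  intro z
  have h1 : ∀ x : ↥(goods k W), ∃ l : List ℕ →₀ ℚ, l ∈ Finsupp.supported ℚ ℚ
      {p : List ℕ | (p = [] ∨ Ad p) ∧ p.sum = W - (wt x.1).1} ∧
      Finsupp.linearCombination ℚ mz l = z x := by
    intro x
    have h2 : (z x : ℝ) ∈ Submodule.span ℚ
      (mz '' {p | (p = [] ∨ Ad p) ∧ p.sum = W - (wt x.1).1}) := (z x).2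
    rw [Finsupp.mem_span_image_iff_linearCombination] at h2
    exact h2
  choose l hl1 hl2 using h1
  have hX : ∀ i : ↥(pats k W), gpt i.1 ∈ goods k W := fun i => (pats_split i.2).2.1
  refine ⟨fun i => l ⟨gpt i.1, hX i⟩ (fpx i.1), ?_⟩
  funext x
  ext
  show ∑ i : ↥(pats k W) with gpt i.1 = x.1, l ⟨gpt i.1, hX i⟩ (fpx i.1) • mz (fpx i.1) = z x
  rw [← hl2 x, Finsupp.linearCombination_apply, Finsupp.sum]
  symm
  have hg := (mem_goods.1 x.2).1.1
  refine sum_bij_ne_zero (fun p hp _ => ⟨fp p ++ x.1, ?_⟩) ?_ ?_ ?_ ?_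
  · have h2 := (Finsupp.mem_supported ℚ _).1 (hl1 x) hp
    exact mem_pats_append x.2 h2.1 h2.2
  · intro p hp _
    exact mem_filter.2 ⟨mem_univ _, gpt_append hg p⟩
  · intro p hp _ p' hp' _ h
    have h3 := congrArg (fun i : ↥(pats k W) => fpx i.1) h
    simp only [fpx_append hg] at h3
    exact h3
  · intro i hi hne
    rw [mem_filter] at hi
    have hx : (⟨gpt i.1, hX i⟩ : ↥(goods k W)) = x := by
      ext1
      exact hi.2
    rw [hx] at hne
    have hs : fpx i.1 ∈ (l x).support := by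
      rw [Finsupp.mem_support_iff]
      intro h0
      apply hne
      rw [h0, zero_smul]
    refine ⟨fpx i.1, hs, hne, ?_⟩
    ext1
    show fp (fpx i.1) ++ x.1 = i.1
    rw [← hi.2]
    exact (pats_split i.2).2.2.2.symm
  · intro p hp _
    have h2 := (Finsupp.mem_supported ℚ _).1 (hl1 x) hp
    have hx : ∀ h, (⟨gpt (fp p ++ x.1), h⟩ : ↥(goods k W)) = x := by
      intro h
      ext1
      exact gpt_append hg p
    simp only
    rw [hx, fpx_append hg]

/-- **the dimension of the kernel** -/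
theorem rank_pats {k W : ℕ} (P : (↥(pats k W) → ℚ) →ₗ[ℚ] (↥(pats k W) → ℚ)) (hP : Function.Injective P) :
    Module.finrank ℚ (LinearMap.ker ((evp k W).comp P)) +
      ∑ n ∈ range (W + 1), gk k (W - n) * Module.finrank ℚ (WS n) =
    ∑ n ∈ range (W + 1), gk k (W - n) * na n := by
  classical
  have h1 : Function.Surjective ((evp k W).comp P) := by
    rw [LinearMap.coe_comp]
    exact (evp_surj k W).comp (LinearMap.surjective_of_injective hP)
  have h2 := LinearMap.finrank_range_add_finrank_ker ((evp k W).comp P)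
  rw [LinearMap.range_eq_top.2 h1, finrank_top, Module.finrank_pi_fintype,
    Module.finrank_fintype_fun_eq_card, Fintype.card_coe, card_pats] at h2
  rw [← h2, ← sum_goods k W fun n => Module.finrank ℚ (WS n), add_comm]
  congr 1
  rw [← sum_coe_sort (goods k W)]

end Pool.Agent.T9h57.HS
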