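import Pool.Agent.T9h57.HS.Str

/-!
# Relations at almost all tuples hold at all tuples

A polynomial relation between the multiple zeta values of the patterns at a tuple `s`, of bounded degree and with
coefficients at most `C ^ N`, holds for all families with the stuffle product and at ALL tuples, unless `s ∈ [N, κ N] ^ k` lies
on one of boundedly many hyperplanes.
-/

set_option autoImplicit false

namespace Pool.Agent.T9h57.HS

open Finset Pool.Agent.Y760.ZF
open Pool.Agent.Y760.ZG (mz)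
open Pool.Agent.X90.DA (fx eval_fx eval_sum)
open Pool.Agent.X90.DB
open Pool.Agent.X90.DC

section

variable {k : ℕ}

/-- the stuffle product of several patterns -/
def pstil : List (List (Lr k)) → List (List (Lr k))
  | [] => [[]]
  | u :: M => (pstil M).flatMap (psti u)

lemma ix_pstil (s : Fin k → ℕ) (M : List (List (Lr k))) : stil (M.map (ix s)) = (pstil M).map (ix s) := by
  induction M with
  | nil =>
    rw [pstil, List.map_nil, stil]
    rfl
  | cons u M ih =>
    rw [List.map_cons, stil, ih, pstil, List.map_flatMap, List.flatMap_map]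
    congr 1
    funext v
    exact ix_psti s u v

/-- the letters are bounded by `K` -/
def Bw (K : ℕ) (x : List (Lr k)) : Prop := ∀ a ∈ x, a.1 ≤ K ∧ ∀ j, a.2 j ≤ K

lemma Bw_mono {K K' : ℕ} (h : K ≤ K') {x : List (Lr k)} (hx : Bw K x) : Bw K' x :=
  fun a ha => ⟨(hx a ha).1.trans h, fun j => ((hx a ha).2 j).trans h⟩

lemma psti_Bw {K K' : ℕ} (u v : List (Lr k)) : Bw K u → Bw K' v → ∀ x ∈ psti u v, Bw (K + K') x := by
  induction u, v using psti.induct with
  | case1 v =>
    intro _ hv x hx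
    rw [psti, List.mem_singleton] at hx
    exact hx ▸ Bw_mono (Nat.le_add_left _ _) hv
  | case2 i u =>
    intro hu _ x hx
    rw [psti, List.mem_singleton] at hx
    exact hx ▸ Bw_mono (Nat.le_add_right _ _) hu
  | case3 i u j v ih1 ih2 ih3 =>
    intro hu hv x hx a ha
    have hu' : Bw K u := fun a ha => hu a (List.mem_cons_of_mem _ ha)
    have hv' : Bw K' v := fun a ha => hv a (List.mem_cons_of_mem _ ha)
    have hi := hu i List.mem_cons_self
    have hj := hv j List.mem_cons_self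
    rw [psti, List.mem_append, List.mem_append, List.mem_map, List.mem_map, List.mem_map] at hx
    rcases hx with (⟨x', hx', rfl⟩ | ⟨x', hx', rfl⟩) | ⟨x', hx', rfl⟩
    · rcases List.mem_cons.1 ha with rfl | ha
      · exact ⟨hi.1.trans (Nat.le_add_right _ _), fun l => (hi.2 l).trans (Nat.le_add_right _ _)⟩
      · exact ih1 hu' hv x' hx' a ha
    · rcases List.mem_cons.1 ha with rfl | ha
      · exact ⟨hj.1.trans (Nat.le_add_left _ _), fun l => (hj.2 l).trans (Nat.le_add_left _ _)⟩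
      · exact ih2 hu hv' x' hx' a ha
    · rcases List.mem_cons.1 ha with rfl | ha
      · exact ⟨Nat.add_le_add hi.1 hj.1, fun l => Nat.add_le_add (hi.2 l) (hj.2 l)⟩
      · exact ih3 hu' hv' x' hx' a ha

lemma pstil_Bw {K : ℕ} (M : List (List (Lr k))) (hM : ∀ u ∈ M, Bw K u) : ∀ x ∈ pstil M, Bw (M.length * K) x := by
  induction M with
  | nil =>
    intro x hx
    rw [pstil, List.mem_singleton] at hx
    subst hx
    exact fun a ha => absurd ha List.not_mem_nil
  | cons u M ih =>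
    intro x hx
    rw [pstil, List.mem_flatMap] at hx
    obtain ⟨v, hv, hx⟩ := hx
    have e : (u :: M).length * K = K + M.length * K := by
      rw [List.length_cons, Nat.succ_mul, add_comm]
    rw [e]
    exact psti_Bw u v (hM u List.mem_cons_self) (ih (fun u hu => hM u (List.mem_cons_of_mem _ hu)) v hv) x hx

/-- the list of the patterns of a monomial -/
def plst {r : ℕ} (w : Fin r → List (Lr k)) (m : Fin r → ℕ) : List (List (Lr k)) :=
  (List.finRange r).flatMap fun i => List.replicate (m i) (w i)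

lemma ix_plst {r : ℕ} (s : Fin k → ℕ) (w : Fin r → List (Lr k)) (m : Fin r → ℕ) :
    lst (fun i => ix s (w i)) m = (plst w m).map (ix s) := by
  rw [lst, plst, List.map_flatMap]
  congr 1
  funext i
  rw [List.map_replicate]

lemma mem_plst {r : ℕ} {w : Fin r → List (Lr k)} {m : Fin r → ℕ} {u : List (Lr k)}
    (h : u ∈ plst w m) : ∃ i, u = w i := by
  rw [plst, List.mem_flatMap] at h
  obtain ⟨i, -, hi⟩ := h
  exact ⟨i, List.eq_of_mem_replicate hi⟩

lemma list_countP {A : Type} [CommRing A] (L : List (List (Lr k))) (F : List (Lr k) → A) (s : Finset (List (Lr k)))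
    (hs : ∀ w ∈ L, w ∈ s) : (L.map F).sum = ∑ w ∈ s, ((L.countP (· = w) : ℕ) : A) * F w := by
  induction L with
  | nil => simp
  | cons a L ih =>
    rw [List.map_cons, List.sum_cons, ih fun w hw => hs w (List.mem_cons_of_mem _ hw)]
    have h1 : ∀ w, (((a :: L).countP (· = w) : ℕ) : A) * F w =
        ((L.countP (· = w) : ℕ) : A) * F w + if a = w then F w else 0 := by
      intro w
      rw [List.countP_cons]
      by_cases h : a = w
      · simp only [h, decide_true, if_true]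
        push_cast
        ring
      · simp only [h, decide_false, if_false, Bool.false_eq_true]
        push_cast
        ring
    simp only [h1]
    rw [Finset.sum_add_distrib, Finset.sum_ite_eq, if_pos (hs a List.mem_cons_self), add_comm]

end

section

variable {t k r D M : ℕ}

/-- the coefficients of the relation, for the patterns -/
noncomputable def pcf (P : MvPolynomial (Fin t ⊕ Fin r) ℤ) (ρ : (Fin t → Fin (D + 1)) → Fin (M + 1) → ℤ)
    (w : Fin r → List (Lr k)) (p : List (Lr k)) (μ : Fin (M + 1)) : ℤ :=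
  ∑ e : Fin r → Fin (D + 1), (∑ m : Fin t → Fin (D + 1), P.coeff (fx (Sum.elim m e)) * ρ m μ) *
    ((pstil (plst w fun i => (e i : ℕ))).countP (· = p) : ℤ)

/-- the patterns of the relation -/
def Lap (D : ℕ) (w : Fin r → List (Lr k)) : Finset (List (Lr k)) :=
  (univ : Finset (Fin r → Fin (D + 1))).biUnion fun e => (pstil (plst w fun i => (e i : ℕ))).toFinset

/-- the value of the polynomial -/
lemma val_eqP {A : Type} [CommRing A] {P : MvPolynomial (Fin t ⊕ Fin r) ℤ}
    (hP : P.totalDegree ≤ D) {x : Fin t → A} {v : Fin (M + 1) → A} {Δ : ℕ}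
    {ρ : (Fin t → Fin (D + 1)) → Fin (M + 1) → ℤ}
    (h2 : ∀ m : Fin t → Fin (D + 1), (Δ : A) * ∏ j, x j ^ ((m j : Fin (D + 1)) : ℕ) =
      ∑ μ, (ρ m μ : A) * v μ)
    (w : Fin r → List (Lr k)) (Z : List (Lr k) → A)
    (hZ : ∀ e : Fin r → Fin (D + 1), ∏ i, Z (w i) ^ ((e i : Fin (D + 1)) : ℕ) =
      ((pstil (plst w fun i => (e i : ℕ))).map Z).sum) :
    (Δ : A) * MvPolynomial.aeval (Sum.elim x fun i => Z (w i)) P =
      ∑ p ∈ Lap D w, (∑ μ, (pcf P ρ w p μ : A) * v μ) * Z p := by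
  classical
  rw [eval_sum hP, mul_sum]
  have h1 : ∀ e : Fin r → Fin (D + 1), ((pstil (plst w fun i => (e i : ℕ))).map Z).sum =
      ∑ p ∈ Lap D w, (((pstil (plst w fun i => (e i : ℕ))).countP (· = p) : ℕ) : A) * Z p := by
    intro e
    refine list_countP _ _ _ fun p hp => ?_
    rw [Lap, mem_biUnion]
    exact ⟨e, mem_univ _, List.mem_toFinset.2 hp⟩
  calc ∑ e : Fin r → Fin (D + 1), (Δ : A) * ((∑ m : Fin t → Fin (D + 1),
        ((P.coeff (fx (Sum.elim m e)) : ℤ) : A) *
          ∏ j, (x j) ^ ((m j : Fin (D + 1)) : ℕ)) *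
        ∏ i, Z (w i) ^ ((e i : Fin (D + 1)) : ℕ)) =
      ∑ e : Fin r → Fin (D + 1), ∑ p ∈ Lap D w, (∑ μ, ((∑ m : Fin t → Fin (D + 1),
        ((P.coeff (fx (Sum.elim m e)) : ℤ) : A) * (ρ m μ : A)) *
          (((pstil (plst w fun i => (e i : ℕ))).countP (· = p) : ℕ) : A)) * v μ) *
          Z p := by
        refine sum_congr rfl fun e _ => ?_
        rw [hZ e, h1 e, ← mul_assoc, mul_sum, mul_sum]
        refine sum_congr rfl fun p _ => ?_
        have h4 : (∑ m : Fin t → Fin (D + 1), (Δ : A) * (((P.coeff (fx (Sum.elim m e)) : ℤ) : A) *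
            ∏ j, (x j) ^ ((m j : Fin (D + 1)) : ℕ))) =
            ∑ μ, (∑ m : Fin t → Fin (D + 1),
              ((P.coeff (fx (Sum.elim m e)) : ℤ) : A) * (ρ m μ : A)) * v μ := by
          simp only [sum_mul]
          rw [sum_comm]
          refine sum_congr rfl fun m _ => ?_
          rw [mul_left_comm, h2 m, mul_sum]
          exact sum_congr rfl fun μ _ => by ring
        rw [h4, sum_mul, sum_mul]
        refine sum_congr rfl fun μ _ => ?_
        ring
    _ = _ := by
        rw [sum_comm]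
        refine sum_congr rfl fun p _ => ?_
        rw [← sum_mul]
        congr 1
        rw [sum_comm]
        refine sum_congr rfl fun μ _ => ?_
        rw [← sum_mul]
        congr 1
        unfold pcf
        push_cast
        rfl

end

/-- `P(y, Z(w_1(s)), …)` vanishes at ALL tuples `s ≥ 2`, for all `y` with the relations of `x` and all `Z` with the
stuffle product -/
def TrivP {t r k : ℕ} (x : Fin t → ℂ) (w : Fin r → List (Lr k)) (P : MvPolynomial (Fin t ⊕ Fin r) ℤ) : Prop :=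
  ∀ (A : Type) [CommRing A] [Algebra ℚ A] (y : Fin t → A) (Z : List ℕ → A),
    (∀ Q : MvPolynomial (Fin t) ℤ, MvPolynomial.aeval x Q = 0 → MvPolynomial.aeval y Q = 0) →
    (∀ u v, Ad u → Ad v → Z u * Z v = ((sti u v).map Z).sum) →
    ∀ s : Fin k → ℕ, (∀ j, 2 ≤ s j) → MvPolynomial.aeval (Sum.elim y fun i => ex Z (ix s (w i))) P = 0

/-- **the dichotomy**: a relation at `s` gives a small linear form, or it holds at all tuples -/
theorem dichP (t k r D : ℕ) (w : Fin r → List (Lr k))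
    (hw : ∀ i, Gd (w i)) (κ K0 ℓ : ℕ)
    (hK0 : ∀ i, ∀ u ∈ w i, u.1 ≤ K0 ∧ ∀ j, u.2 j ≤ K0) (hℓ : ∀ i, (w i).length ≤ ℓ) (C : ℝ)
    (x : Fin t → ℂ) :
    ∃ (M : ℕ) (_ : M + 1 ≤ (D + 1) ^ t) (v : Fin (M + 1) → ℂ) (_ : LinearIndependent ℚ v)
      (C' : ℝ) (_ : 1 ≤ C'), ∀ N : ℕ, r * D * ℓ + 2 ≤ N → ∀ s : Fin k → ℕ,
      (∀ j, N ≤ s j ∧ s j ≤ κ * N) →
      (∀ p q : List (Lr k), Bw (r * D * K0) p → Bw (r * D * K0) q → ix s p = ix s q → p = q) →
      ∀ P : MvPolynomial (Fin t ⊕ Fin r) ℤ, P.totalDegree ≤ D →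
      (∀ m, |((P.coeff m : ℤ) : ℝ)| ≤ C ^ N) →
      MvPolynomial.aeval (Sum.elim x fun i => ((mz (ix s (w i)) : ℝ) : ℂ)) P = 0 →
      Bd N (M + 1) ((D + 1) ^ r * (3 ^ (r * D * ℓ)) ^ (r * D)) (r * D * ℓ)
        ((r * D * (K0 * (1 + k * κ)) : ℕ) : ℝ) C' (r * D * K0) v (Lt (r * D * K0) s) ∨
      TrivP x w P := by
  classical
  obtain ⟨M, hM, g, hv, Δ, hΔ, ρ, hρ⟩ := indep'
    (fun m : Fin t → Fin (D + 1) => ∏ j, x j ^ ((m j : Fin (D + 1)) : ℕ)) ⟨0, by simp⟩
  rw [Fintype.card_fun, Fintype.card_fin, Fintype.card_fin] at hM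
  set S : ℕ := (3 ^ (r * D * ℓ)) ^ (r * D) with hS
  set Sρ : ℝ := ∑ m : Fin t → Fin (D + 1), ∑ μ, |(ρ m μ : ℝ)| with hSρ
  have hSρ0 : 0 ≤ Sρ := by positivity
  set C1 : ℝ := ((D + 1) ^ r * S * Sρ + 1) with hC1
  have hC11 : 1 ≤ C1 := by
    rw [hC1]
    exact le_add_of_nonneg_left (by positivity)
  have hC0 : 0 ≤ |C| := abs_nonneg C
  refine ⟨M, hM, _, hv, C1 * (1 + |C|), by nlinarith, fun N hN s hs hinj P hPD hPC hP0 => ?_⟩
  have hN1 : 1 ≤ N := by omega
  set W : Fin r → List ℕ := fun i => ix s (w i) with hW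
  -- the monomials
  have hlen : ∀ e : Fin r → Fin (D + 1), (lst W fun i => (e i : ℕ)).length ≤ r * D := by
    intro e
    rw [length_lst]
    calc ∑ i, ((e i : Fin (D + 1)) : ℕ) ≤ ∑ _i : Fin r, D :=
          sum_le_sum fun i _ => Nat.lt_succ_iff.1 (e i).2
      _ = r * D := by simp
  have hCl : ∀ e : Fin r → Fin (D + 1), ∀ u ∈ lst W fun i => (e i : ℕ),
      Cl N ((K0 * (1 + k * κ) : ℕ) * (N : ℝ)) ℓ u := by
    intro e u hu
    obtain ⟨i, rfl⟩ := mem_lst hu
    exact ix_Cl hs hN1 (hw i) (hK0 i) (hℓ i)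
  have hcnt : ∀ e : Fin r → Fin (D + 1), (stil (lst W fun i => (e i : ℕ))).length ≤ S := by
    intro e
    refine (stil_count ℓ _ fun u hu => (hCl e u hu).1).2.trans ?_
    rw [hS]
    refine (Nat.pow_le_pow_left (Nat.pow_le_pow_right (by omega)
      (Nat.mul_le_mul_right ℓ (hlen e))) _).trans ?_
    exact Nat.pow_le_pow_right (Nat.one_le_pow _ _ (by omega)) (hlen e)
  have hval := val_eq (A := ℂ) hPD hρ W (fun u => ((mz u : ℝ) : ℂ)) (fun e => by
    have h1 := mz_prod (by positivity) _ (hCl e) (by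
      have := Nat.mul_le_mul_right ℓ (hlen e)
      omega)
    rw [prod_lst] at h1
    have h2 := congrArg (fun y : ℝ => (y : ℂ)) h1
    push_cast at h2
    rw [h2]
    generalize stil (lst W fun i => (e i : ℕ)) = T
    induction T with
    | nil => simp
    | cons a T ih => simp [ih])
  rw [hP0, mul_zero] at hval
  by_cases hz : ∃ y ∈ La D W, ∃ μ, cf P ρ W y μ ≠ 0
  · left
    refine ⟨La D W, cf P ρ W, ?_, fun y hy => ?_, fun y hy μ => ?_, hz, hval.symm⟩
    · rw [La]
      calc (univ.biUnion fun e : Fin r → Fin (D + 1) =>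
            (stil (lst W fun i => (e i : ℕ))).toFinset).card ≤
          ∑ e : Fin r → Fin (D + 1), (stil (lst W fun i => (e i : ℕ))).toFinset.card :=
            card_biUnion_le
        _ ≤ ∑ _e : Fin r → Fin (D + 1), S :=
            sum_le_sum fun e _ => (List.toFinset_card_le _).trans (hcnt e)
        _ = (D + 1) ^ r * S := by simp
    · rw [La, mem_biUnion] at hy
      obtain ⟨e, -, hy⟩ := hy
      rw [List.mem_toFinset] at hy
      have h1 := stil_Cl (by positivity) _ (hCl e) y hy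
      have h2 := hlen e
      refine ⟨h1.1.trans (Nat.mul_le_mul_right _ h2), ⟨fun m hm => ⟨(h1.2.1 m hm).1, ?_⟩,
        h1.2.2⟩, ?_⟩
      · refine (h1.2.1 m hm).2.trans ?_
        have h3 : (((lst W fun i => (e i : ℕ)).length : ℕ) : ℝ) ≤ ((r * D : ℕ) : ℝ) := by
          exact_mod_cast h2
        calc (((lst W fun i => (e i : ℕ)).length : ℕ) : ℝ) * (((K0 * (1 + k * κ) : ℕ) : ℝ) * N) ≤
            ((r * D : ℕ) : ℝ) * (((K0 * (1 + k * κ) : ℕ) : ℝ) * N) :=
              mul_le_mul_of_nonneg_right h3 (by positivity)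
          _ = _ := by push_cast; ring
      · have h3 := stil_Hd (lst W fun i => (e i : ℕ)) (K := K0) (s := s) (fun u hu => by
          obtain ⟨i, rfl⟩ := mem_lst hu
          exact ix_Hd s (hw i) (hK0 i)) y hy
        have h4 := Nat.mul_le_mul_right K0 h2
        refine ⟨fun a ha => Lt_mono h4 s (h3.1 a ha), fun a ha => ?_⟩
        rcases h3.2 a ha with h5 | h5
        · exact Or.inl (Lt_mono h4 s h5)
        · exact Or.inr (h5.trans h4)
    · -- heights
      have hCN : ∀ m, |((P.coeff m : ℤ) : ℝ)| ≤ |C| ^ N := fun m =>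
        (hPC m).trans ((le_abs_self _).trans (abs_pow _ _).le)
      unfold cf
      push_cast
      calc |∑ e : Fin r → Fin (D + 1), (∑ m : Fin t → Fin (D + 1),
            ((P.coeff (fx (Sum.elim m e)) : ℤ) : ℝ) * (ρ m μ : ℝ)) *
            (((stil (lst W fun i => (e i : ℕ))).countP (· = y) : ℕ) : ℝ)| ≤
          ∑ _e : Fin r → Fin (D + 1), (|C| ^ N * Sρ) * (S : ℝ) := by
            refine (abs_sum_le_sum_abs _ _).trans (sum_le_sum fun e _ => ?_)
            rw [abs_mul, Nat.abs_cast]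
            refine mul_le_mul ?_ ?_ (Nat.cast_nonneg _) (by positivity)
            · refine (abs_sum_le_sum_abs _ _).trans ?_
              rw [hSρ, mul_sum]
              refine sum_le_sum fun m _ => ?_
              rw [abs_mul]
              refine mul_le_mul (hCN _) ?_ (abs_nonneg _) (by positivity)
              exact single_le_sum (f := fun μ => |(ρ m μ : ℝ)|) (fun _ _ => abs_nonneg _)
                (mem_univ μ)
            · exact_mod_cast List.countP_le_length.trans (hcnt e)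
        _ = ((D + 1) ^ r * S * Sρ) * |C| ^ N := by
            rw [sum_const, card_univ, Fintype.card_fun, Fintype.card_fin, Fintype.card_fin,
              nsmul_eq_mul]
            push_cast
            ring
        _ ≤ C1 * (1 + |C|) ^ N := by
            refine mul_le_mul (by rw [hC1]; linarith) ?_ (by positivity) (by linarith)
            exact pow_le_pow_left₀ hC0 (by linarith) _
        _ ≤ C1 ^ N * (1 + |C|) ^ N := by
            refine mul_le_mul_of_nonneg_right ?_ (by positivity)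
            exact le_self_pow₀ hC11 (by omega)
        _ = (C1 * (1 + |C|)) ^ N := (mul_pow _ _ _).symm
  · right
    push Not at hz
    -- the coefficients vanish for the patterns
    have hstil : ∀ (s : Fin k → ℕ) (e : Fin r → Fin (D + 1)),
        stil (lst (fun i => ix s (w i)) fun i => (e i : ℕ)) = (pstil (plst w fun i => (e i : ℕ))).map (ix s) :=
      fun s e => by rw [ix_plst, ix_pstil]
    have hBw : ∀ e : Fin r → Fin (D + 1), ∀ q ∈ pstil (plst w fun i => (e i : ℕ)), Bw (r * D * K0) q := by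
      intro e q hq
      refine Bw_mono (Nat.mul_le_mul_right K0 (?_ : (plst w fun i => (e i : ℕ)).length ≤ r * D))
        (pstil_Bw (K := K0) _ (fun u hu => ?_) q hq)
      · have h1 := hlen e
        rw [hW, ix_plst, List.length_map] at h1
        exact h1
      · obtain ⟨i, rfl⟩ := mem_plst hu
        exact hK0 i
    have hp : ∀ p ∈ Lap D w, ∀ μ, pcf P ρ w p μ = 0 := by
      intro p hp μ
      rw [Lap, mem_biUnion] at hp
      obtain ⟨e0, -, hp⟩ := hp
      rw [List.mem_toFinset] at hp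
      have hLa : ix s p ∈ La D W := by
        rw [La, mem_biUnion]
        refine ⟨e0, mem_univ _, List.mem_toFinset.2 ?_⟩
        rw [hW, hstil]
        exact List.mem_map_of_mem hp
      rw [← hz _ hLa μ]
      unfold pcf cf
      refine sum_congr rfl fun e _ => ?_
      congr 2
      rw [hW, hstil, List.countP_map]
      refine List.countP_congr fun q hq => ?_
      simp only [Function.comp, decide_eq_true_eq]
      exact ⟨fun h => by rw [h], fun h => hinj q p (hBw e q hq) (hBw e0 p hp) h⟩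
    intro A _ _ y Z hy hZ s' hs'
    have hAd : ∀ i, ix s' (w i) = [] ∨ Ad (ix s' (w i)) := fun i => ix_Ad hs' (hw i)
    have hρA : ∀ m : Fin t → Fin (D + 1),
        (Δ : A) * ∏ j, y j ^ ((m j : Fin (D + 1)) : ℕ) =
        ∑ μ, (ρ m μ : A) * ∏ j, y j ^ ((g μ j : Fin (D + 1)) : ℕ) := by
      intro m
      have h1 := hy ((Δ : MvPolynomial (Fin t) ℤ) * ∏ j, MvPolynomial.X j ^ ((m j : Fin (D + 1)) : ℕ) -
        ∑ μ, (ρ m μ : MvPolynomial (Fin t) ℤ) *
          ∏ j, MvPolynomial.X j ^ ((g μ j : Fin (D + 1)) : ℕ)) (by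
        simp only [map_sub, map_mul, map_natCast, map_prod, map_pow, MvPolynomial.aeval_X, map_sum,
          map_intCast]
        rw [hρ m, sub_self])
      simp only [map_sub, map_mul, map_natCast, map_prod, map_pow, MvPolynomial.aeval_X, map_sum,
          map_intCast] at h1
      exact sub_eq_zero.1 h1
    have hval2 := val_eqP (A := A) hPD hρA w (fun p => ex Z (ix s' p)) (fun e => by
      have h1 : ∏ i, ex Z (ix s' (w i)) ^ ((e i : Fin (D + 1)) : ℕ) =
          ((lst (fun i => ix s' (w i)) fun i => (e i : ℕ)).map (ex Z)).prod := (prod_lst _ _ _).symm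
      rw [h1, prod_ex' hZ _ (fun u hu => by
        obtain ⟨i, rfl⟩ := mem_lst hu
        exact hAd i), hstil, List.map_map]
      rfl)
    rw [sum_eq_zero fun p hp' => by simp [hp p hp']] at hval2
    have h2 : (Δ : A) = algebraMap ℚ A (Δ : ℚ) := (map_natCast _ _).symm
    have h3 : (Δ : ℚ) ≠ 0 := by exact_mod_cast hΔ
    calc _ = algebraMap ℚ A ((Δ : ℚ)⁻¹) * ((Δ : A) * MvPolynomial.aeval
          (Sum.elim y fun i => ex Z (ix s' (w i))) P) := by
          rw [h2, ← mul_assoc, ← map_mul, inv_mul_cancel₀ h3, map_one, one_mul]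
      _ = 0 := by rw [hval2, mul_zero]

/-- the tuples at which different patterns with letters bounded by `K` coincide lie on few hyperplanes -/
lemma collide (k K : ℕ) : OnFew ((2 * K + 1) ^ (k + 1)) K
    {s : Fin k → ℕ | ¬ ∀ p q : List (Lr k), Bw K p → Bw K q → ix s p = ix s q → p = q} := by
  classical
  refine ⟨(((Fintype.piFinset fun _ : Fin k => Finset.Icc (-(K : ℤ)) K) ×ˢ Finset.Icc (-(K : ℤ)) K).filter
    fun h => h.1 ≠ 0), ?_, ?_, ?_⟩
  · refine (card_le_card (filter_subset _ _)).trans ?_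
    rw [card_product, Fintype.card_piFinset, prod_const, card_univ, Fintype.card_fin, Int.card_Icc]
    have h1 : ((K : ℤ) + 1 - -(K : ℤ)).toNat = 2 * K + 1 := by omega
    rw [h1, pow_succ]
  · intro h hh
    rw [mem_filter, mem_product, Fintype.mem_piFinset] at hh
    exact ⟨hh.2, fun j => abs_le.2 (mem_Icc.1 (hh.1.1 j))⟩
  · intro s hs
    have hs' : ¬ ∀ p q : List (Lr k), Bw K p → Bw K q → ix s p = ix s q → p = q := hs
    push Not at hs'
    obtain ⟨p, q, hp, hq, he, hne⟩ := hs'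
    obtain ⟨a, ha, b, hb, hab, he2⟩ := exists_ne (fun u : Lr k => u.1 + ∑ j, u.2 j * s j) p q he hne
    have h2 : ((a.1 : ℤ) + ∑ j, (a.2 j : ℤ) * s j) = b.1 + ∑ j, (b.2 j : ℤ) * s j := by
      have h1 : a.1 + ∑ j, a.2 j * s j = b.1 + ∑ j, b.2 j * s j := he2
      exact_mod_cast h1
    have h3 : a.2 ≠ b.2 := by
      intro h
      apply hab
      rw [h] at h2
      have h4 : (a.1 : ℤ) = b.1 := by linarith
      exact Prod.ext (by exact_mod_cast h4) h
    obtain ⟨ha1, ha2⟩ := hp a ha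
    obtain ⟨hb1, hb2⟩ := hq b hb
    refine ⟨(fun j => (a.2 j : ℤ) - b.2 j, (b.1 : ℤ) - a.1), ?_, ?_⟩
    · rw [mem_filter, mem_product, Fintype.mem_piFinset, mem_Icc]
      refine ⟨⟨fun j => ?_, ?_, ?_⟩, fun h0 => h3 ?_⟩
      · have := ha2 j
        have := hb2 j
        rw [mem_Icc]
        constructor <;> simp only <;> omega
      · simp only
        omega
      · simp only
        omega
      · funext j
        have := congrFun h0 j
        simp only [Pi.zero_apply] at this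
        omega
    · simp only [sub_mul, sum_sub_distrib]
      linarith

/-- **the exceptional tuples lie on few hyperplanes**; at the other tuples a relation holds identically -/
theorem fewP (t k r D : ℕ) (w : Fin r → List (Lr k))
    (hw : ∀ i, Gd (w i)) (κ : ℕ) :
    ∃ K Q : ℕ, ∀ (C : ℝ) (x : Fin t → ℂ), ∃ N0 : ℕ, ∀ N : ℕ, N0 ≤ N → ∀ B : Set (Fin k → ℕ),
      (∀ s ∈ B, (∀ j, N ≤ s j ∧ s j ≤ κ * N) ∧
        ∃ P : MvPolynomial (Fin t ⊕ Fin r) ℤ, P.totalDegree ≤ D ∧
          (∀ m, |((P.coeff m : ℤ) : ℝ)| ≤ C ^ N) ∧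
          MvPolynomial.aeval (Sum.elim x fun i => ((mz (ix s (w i)) : ℝ) : ℂ)) P = 0 ∧
          ¬ TrivP x w P) →
      OnFew K Q B := by
  classical
  -- the constants of the words
  obtain ⟨K0, hK0⟩ : ∃ K0 : ℕ, ∀ i, ∀ u ∈ w i, u.1 ≤ K0 ∧ ∀ j, u.2 j ≤ K0 := by
    refine ⟨∑ i, ((w i).map fun u => u.1 + ∑ j, u.2 j).sum, fun i u hu => ?_⟩
    have h1 : ((w i).map fun u => u.1 + ∑ j, u.2 j).sum ≤
        ∑ i, ((w i).map fun u => u.1 + ∑ j, u.2 j).sum :=
      single_le_sum (f := fun i => ((w i).map fun u => u.1 + ∑ j, u.2 j).sum)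
        (fun _ _ => Nat.zero_le _) (mem_univ i)
    have h2 : u.1 + ∑ j, u.2 j ≤ ((w i).map fun u => u.1 + ∑ j, u.2 j).sum :=
      List.single_le_sum (fun _ _ => Nat.zero_le _) _ (List.mem_map_of_mem hu)
    refine ⟨by omega, fun j => ?_⟩
    have h3 : u.2 j ≤ ∑ j, u.2 j :=
      single_le_sum (f := fun j => u.2 j) (fun _ _ => Nat.zero_le _) (mem_univ j)
    omega
  obtain ⟨ℓ, hℓ⟩ : ∃ ℓ : ℕ, ∀ i, (w i).length ≤ ℓ :=
    ⟨∑ i, (w i).length, fun i => single_le_sum (f := fun i => (w i).length)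
      (fun _ _ => Nat.zero_le _) (mem_univ i)⟩
  set m : ℕ := 3 ^ ((D + 1) ^ t) with hm
  set Kk : ℕ := r * D * K0 with hKk
  set T : ℕ := ∑ M ∈ range ((D + 1) ^ t), Tn M Kk with hT
  set Q : ℕ := T + m * Kk + Kk with hQ
  refine ⟨(2 * Q + 1) ^ (1 + m * k) + (2 * Kk + 1) ^ (k + 1), max Q Kk, fun C x => ?_⟩
  obtain ⟨M, hM, v, hv, C', hC', hdich⟩ := dichP t k r D w hw κ K0 ℓ hK0 hℓ C x
  obtain ⟨n0, hno⟩ := no_many M ((D + 1) ^ r * (3 ^ (r * D * ℓ)) ^ (r * D)) (r * D * ℓ)
    ((r * D * (K0 * (1 + k * κ)) : ℕ) : ℝ) C' Kk (Nat.cast_nonneg _) hC'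
  have hTM : Tn M Kk ≤ T := by
    rw [hT]
    exact single_le_sum (f := fun M => Tn M Kk) (fun _ _ => Nat.zero_le _) (mem_range.2 hM)
  refine ⟨n0 + (r * D * ℓ + 2), fun N hN B hB => ?_⟩
  set B' : Set (Fin k → ℕ) := {s | ¬ ∀ p q : List (Lr k), Bw Kk p → Bw Kk q → ix s p = ix s q → p = q} with hB'
  refine ((onFew_noGT Q (B \ B') m (fun s hs' hGT => ?_)).union (collide k Kk)).mono le_rfl fun s hs => ?_
  swap
  · by_cases h : s ∈ B'
    · exact Or.inr h
    · exact Or.inl ⟨hs, h⟩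
  have hs : ∀ i, s i ∈ B := fun i => (hs' i).1
  have hs1 : ∀ i j, N ≤ s i j := fun i j => ((hB _ (hs i)).1 j).1
  refine hno N (by omega) v hv (Fin m) (fun i => Lt Kk (s i)) ?_ ?_ (fun i => ?_) fun i => ?_
  · rw [Fintype.card_fin, hm]
    exact Nat.pow_le_pow_right (by norm_num) (by omega)
  · refine GP.mono (gp hGT (T := T) ?_ ?_) hTM
    · rw [Fintype.card_fin, hQ]
      omega
    · rw [hQ]
      omega
  · exact Lt_zero fun j => le_trans (by omega) (hs1 i j)
  · obtain ⟨hs2, P, hPD, hPC, hP0, hPne⟩ := hB _ (hs i)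
    exact (hdich N (by omega) (s i) hs2 (not_not.1 (hs' i).2) P hPD hPC hP0).resolve_right hPne

/-- **the tuples with exceptional relations, general patterns**; at the other tuples a relation holds identically -/
theorem gen2P (t k r D : ℕ) (w : Fin r → List (Lr k)) (hw : ∀ i, Ge (w i)) (S : Set (List ℕ))
    (hS : ∀ i q, q <+: fpx (w i) → q ≠ [] → q ∈ S) (κ : ℕ) :
    ∃ K Q : ℕ, ∀ (C : ℝ) (x : Fin t → ℂ), ∃ N0 : ℕ, ∀ N : ℕ, N0 ≤ N → ∀ B : Set (Fin k → ℕ),
      (∀ s ∈ B, (∀ j, N ≤ s j ∧ s j ≤ κ * N) ∧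
        ∃ P : MvPolynomial (Fin t ⊕ Fin r) ℤ, P.totalDegree ≤ D ∧
          (∀ m, |((P.coeff m : ℤ) : ℝ)| ≤ C ^ N) ∧
          MvPolynomial.aeval (Sum.elim x fun i => ((mz (ix s (w i)) : ℝ) : ℂ)) P = 0 ∧
          ¬ ∀ (A : Type) [CommRing A] [Algebra ℚ A] (y : Fin t → A) (Z : List ℕ → A),
            Rel2 S x y Z → (∀ u v, Ad u → Ad v → Z u * Z v = ((sti u v).map Z).sum) →
            ∀ s' : Fin k → ℕ, (∀ j, 2 ≤ s' j) →
              MvPolynomial.aeval (Sum.elim y fun i => ex Z (ix s' (w i))) P = 0) →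
      OnFew K Q B := by
  classical
  -- the decompositions
  have h1 : ∀ i, ∃ L : List (ℤ × List ℕ × List (Lr k)),
      (∀ e ∈ L, (e.2.1 = [] ∨ Ad e.2.1 ∧ e.2.1 ∈ S) ∧ Gd e.2.2) ∧
      ∀ (A : Type) [CommRing A] (Z : List ℕ → A),
        (∀ u v, Ad u → Ad v → Z u * Z v = ((sti u v).map Z).sum) →
        ∀ s : Fin k → ℕ, (∀ j, 2 ≤ s j) → ex Z (ix s (w i)) =
          (L.map fun e => (e.1 : A) * (ex Z e.2.1 * ex Z (ix s e.2.2))).sum := by
    intro i
    obtain ⟨v, h2, h3⟩ := exists_prefix2 (w i) (hw i).2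
    have hge : Ge (fp (fpx (w i)) ++ v) := by
      rw [← h3]
      exact hw i
    obtain ⟨L, hL1, hL2⟩ := dec2 (fpx (w i)).length (fpx (w i)) le_rfl (ge_prefix hge) v h2
    refine ⟨L, fun e he => ?_, fun A _ Z hZ s hs => ?_⟩
    · obtain ⟨g1, g2, g3⟩ := hL1 e he
      by_cases h0 : e.2.1 = []
      · exact ⟨Or.inl h0, g3⟩
      · exact ⟨Or.inr ⟨g1.resolve_left h0, hS i _ g2 h0⟩, g3⟩
    · rw [h3, ix_append, ix_fp]
      exact hL2 A Z hZ s hs
  choose L hL1 hL2 using h1
  -- the variables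
  set J : Type := Σ i : Fin r, Fin (L i).length with hJ
  set m : ℕ := Fintype.card J with hm
  let e : J ≃ Fin m := Fintype.equivFin J
  let val : Fin m → ℤ × List ℕ × List (Lr k) := fun j => (L (e.symm j).1).get (e.symm j).2
  have hval : ∀ j, ((val j).2.1 = [] ∨ Ad (val j).2.1 ∧ (val j).2.1 ∈ S) ∧ Gd (val j).2.2 :=
    fun j => hL1 _ _ (List.get_mem _ _)
  have hvale : ∀ (i : Fin r) (j : Fin (L i).length), val (e ⟨i, j⟩) = (L i).get j := by
    intro i j
    show (L (e.symm (e ⟨i, j⟩)).1).get (e.symm (e ⟨i, j⟩)).2 = _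
    rw [e.symm_apply_apply]
  obtain ⟨G, hG1, hG2⟩ : ∃ G : Fin t ⊕ Fin r → MvPolynomial (Fin (t + m) ⊕ Fin m) ℤ,
      (∀ (A : Type) [CommRing A] (X' : Fin (t + m) → A) (Y' : Fin m → A) (j : Fin t),
        MvPolynomial.aeval (Sum.elim X' Y') (G (Sum.inl j)) = X' (Fin.castAdd m j)) ∧
      (∀ (A : Type) [CommRing A] (X' : Fin (t + m) → A) (Y' : Fin m → A) (i : Fin r),
        MvPolynomial.aeval (Sum.elim X' Y') (G (Sum.inr i)) = ∑ j : Fin (L i).length,
          ((((L i).get j).1 : ℤ) : A) * (X' (Fin.natAdd t (e ⟨i, j⟩)) * Y' (e ⟨i, j⟩))) := by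
    refine ⟨Sum.elim (fun j => MvPolynomial.X (Sum.inl (Fin.castAdd m j)))
      (fun i => ∑ j : Fin (L i).length, ((((L i).get j).1 : ℤ) : MvPolynomial _ ℤ) *
        (MvPolynomial.X (Sum.inl (Fin.natAdd t (e ⟨i, j⟩))) * MvPolynomial.X (Sum.inr (e ⟨i, j⟩)))),
      fun A _ X' Y' j => ?_, fun A _ X' Y' i => ?_⟩
    · simp
    · simp
  obtain ⟨D', S', hS', hsub⟩ := subst_bound G D
  obtain ⟨K, Qz, hK⟩ := fewP (t + m) k m D' (fun j => (val j).2.2) (fun j => (hval j).2) κ
  refine ⟨K, Qz, fun C x => ?_⟩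
  set x' : Fin (t + m) → ℂ := Fin.append x fun j => ((mz (val j).2.1 : ℝ) : ℂ) with hx'
  obtain ⟨N0, hN0⟩ := hK ((1 + |C|) * (1 + S')) x'
  refine ⟨N0 + 2, fun N hN B hB => hN0 N (by omega) B fun s hs => ?_⟩
  obtain ⟨hs1, P, hPD, hPC, hP0, hPne⟩ := hB s hs
  have hs2 : ∀ j, 2 ≤ s j := fun j => le_trans (by omega) (hs1 j).1
  -- the value of the new polynomial
  have hcomp : ∀ (A : Type) [CommRing A] (y : Fin t → A) (Z : List ℕ → A),
      (∀ u v, Ad u → Ad v → Z u * Z v = ((sti u v).map Z).sum) → ∀ s : Fin k → ℕ, (∀ j, 2 ≤ s j) →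
      MvPolynomial.aeval (Sum.elim (Fin.append y fun j => ex Z (val j).2.1)
        fun j => ex Z (ix s (val j).2.2)) (MvPolynomial.aeval G P : MvPolynomial _ ℤ) =
      MvPolynomial.aeval (Sum.elim y fun i => ex Z (ix s (w i))) P := by
    intro A _ y Z hZ s hs2
    rw [← AlgHom.comp_apply]
    congr 1
    refine MvPolynomial.algHom_ext fun i => ?_
    rw [AlgHom.comp_apply, MvPolynomial.aeval_X, MvPolynomial.aeval_X]
    cases i with
    | inl j =>
      rw [hG1, Fin.append_left]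
      rfl
    | inr i =>
      rw [hG2, Sum.elim_inr, hL2 i A Z hZ s hs2, sum_list]
      refine sum_congr rfl fun j _ => ?_
      rw [Fin.append_right, hvale]
  refine ⟨hs1, MvPolynomial.aeval G P, (hsub P hPD).1, fun m' => ?_, ?_, fun hT => hPne ?_⟩
  · have hCN : ∀ m, |((P.coeff m : ℤ) : ℝ)| ≤ |C| ^ N := fun m =>
        (hPC m).trans ((le_abs_self _).trans (abs_pow _ _).le)
    refine ((hsub P hPD).2 (|C| ^ N) (by positivity) hCN m').trans ?_
    rw [mul_pow]
    refine mul_le_mul (pow_le_pow_left₀ (abs_nonneg _) (by linarith) _) ?_ hS' (by positivity)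
    exact (by linarith : S' ≤ 1 + S').trans (le_self_pow₀ (by linarith) (by omega))
  · have h2 := hcomp ℂ x (fun u => ((mz u : ℝ) : ℂ)) mz_stuffle_C s hs2
    simp only [ex_mz] at h2
    rw [hx', h2, hP0]
  · intro A _ _ y Z hR hZ s' hs'
    rw [← hcomp A y Z hZ s' hs']
    refine hT A _ Z (fun Q hQ => ?_) hZ s' hs'
    -- the relations
    set ψ : Fin (t + m) → MvPolynomial (Fin t ⊕ {p : List ℕ // Ad p ∧ p ∈ S}) ℤ :=
      Fin.append (fun j => MvPolynomial.X (Sum.inl j)) fun j =>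
        if h : Ad (val j).2.1 ∧ (val j).2.1 ∈ S then MvPolynomial.X (Sum.inr ⟨(val j).2.1, h⟩) else 1
      with hψ
    have hψ' : ∀ (A : Type) [CommRing A] (y : Fin t → A) (Z : List ℕ → A),
        MvPolynomial.aeval (Sum.elim y fun p : {p : List ℕ // Ad p ∧ p ∈ S} => Z p.1)
          (MvPolynomial.aeval ψ Q : MvPolynomial _ ℤ) =
        MvPolynomial.aeval (Fin.append y fun j => ex Z (val j).2.1) Q := by
      intro A _ y Z
      rw [← AlgHom.comp_apply]
      congr 1
      refine MvPolynomial.algHom_ext fun i => ?_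
      rw [AlgHom.comp_apply, MvPolynomial.aeval_X, MvPolynomial.aeval_X]
      refine Fin.addCases (fun j => ?_) (fun j => ?_) i
      · rw [hψ, Fin.append_left, Fin.append_left, MvPolynomial.aeval_X, Sum.elim_inl]
      · rw [hψ, Fin.append_right, Fin.append_right]
        rcases (hval j).1 with h | h
        · rw [dif_neg (by rw [h]; exact fun h => h.1), map_one, h, ex_nil]
        · rw [dif_pos h, MvPolynomial.aeval_X, Sum.elim_inr, ex_ne Z (ad_ne h.1)]
    rw [← hψ']
    refine hR _ ?_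
    rw [hψ' ℂ x fun u => ((mz u : ℝ) : ℂ)]
    simp only [ex_mz]
    exact hQ

end Pool.Agent.T9h57.HS
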