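import Pool.Agent.X90.DC.Gen2

/-!
# The exceptional tuples lie on few hyperplanes

In the starting library `X90.DC` the exceptional tuples are counted (`few`, `gen2`). Here it is shown that they lie on a
bounded number of hyperplanes with bounded integral normal vectors.
-/

set_option autoImplicit false

namespace Pool.Agent.T9h57.HS

open Finset Pool.Agent.Y760.ZF
open Pool.Agent.Y760.ZG (mz)
open Pool.Agent.X90.DA (fx eval_fx)
open Pool.Agent.X90.DB (GT Lt Lt_zero ix card_noGT Ad ex ex_nil ex_ne ad_ne)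
open Pool.Agent.X90.DC

/-- the elements of `B` lie on at most `K` hyperplanes `∑ c_j s_j = b` with integral `c ≠ 0`, `|c_j| ≤ Q` -/
def OnFew {k : ℕ} (K Q : ℕ) (B : Set (Fin k → ℕ)) : Prop :=
  ∃ P : Finset ((Fin k → ℤ) × ℤ), P.card ≤ K ∧ (∀ h ∈ P, h.1 ≠ 0 ∧ ∀ j, |h.1 j| ≤ Q) ∧
    ∀ s ∈ B, ∃ h ∈ P, ∑ j, h.1 j * (s j : ℤ) = h.2

lemma OnFew.mono {k K K' Q : ℕ} {B B' : Set (Fin k → ℕ)} (h : OnFew K Q B) (hK : K ≤ K') (hB : B' ⊆ B) :
    OnFew K' Q B' := by
  obtain ⟨P, h1, h2, h3⟩ := h
  exact ⟨P, h1.trans hK, h2, fun s hs => h3 s (hB hs)⟩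

lemma OnFew.union {k K K' Q Q' : ℕ} {B B' : Set (Fin k → ℕ)} (h : OnFew K Q B) (h' : OnFew K' Q' B') :
    OnFew (K + K') (max Q Q') (B ∪ B') := by
  classical
  obtain ⟨P, h1, h2, h3⟩ := h
  obtain ⟨P', h1', h2', h3'⟩ := h'
  refine ⟨P ∪ P', (card_union_le _ _).trans (Nat.add_le_add h1 h1'), fun q hq => ?_, fun s hs => ?_⟩
  · rcases mem_union.1 hq with hq | hq
    · refine ⟨(h2 q hq).1, fun j => ((h2 q hq).2 j).trans ?_⟩
      exact_mod_cast le_max_left _ _
    · refine ⟨(h2' q hq).1, fun j => ((h2' q hq).2 j).trans ?_⟩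
      exact_mod_cast le_max_right _ _
  · rcases hs with hs | hs
    · obtain ⟨q, hq, he⟩ := h3 s hs
      exact ⟨q, mem_union_left _ hq, he⟩
    · obtain ⟨q, hq, he⟩ := h3' s hs
      exact ⟨q, mem_union_right _ hq, he⟩

lemma exists_ne {α β : Type} (f : α → β) : ∀ v v' : List α, v.map f = v'.map f → v ≠ v' →
    ∃ a ∈ v, ∃ b ∈ v', a ≠ b ∧ f a = f b := by
  intro v
  induction v with
  | nil =>
    intro v' h hne
    cases v' with
    | nil => exact absurd rfl hne
    | cons b v' => simp at h
  | cons a v ih =>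
    intro v' h hne
    cases v' with
    | nil => simp at h
    | cons b v' =>
      rw [List.map_cons, List.map_cons, List.cons.injEq] at h
      by_cases hab : a = b
      · subst hab
        obtain ⟨x, hx, y, hy, h1, h2⟩ := ih v' h.2 (fun h => hne (by rw [h]))
        exact ⟨x, List.mem_cons_of_mem _ hx, y, List.mem_cons_of_mem _ hy, h1, h2⟩
      · exact ⟨a, List.mem_cons_self, b, List.mem_cons_self, hab, h.1⟩

/-- sets without tuples in general position lie on few hyperplanes -/
theorem onFew_noGT {k : ℕ} (Q : ℕ) (B : Set (Fin k → ℕ)) :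
    ∀ m : ℕ, (∀ s : Fin m → Fin k → ℕ, (∀ i, s i ∈ B) → ¬ GT Q s) →
      OnFew ((2 * Q + 1) ^ (1 + m * k)) Q B := by
  classical
  intro m
  induction m with
  | zero =>
    intro h
    exfalso
    refine h (fun i => i.elim0) (fun i => i.elim0) fun c0 c hc => ?_
    exact absurd (Subsingleton.elim c 0) hc
  | succ m ih =>
    intro h
    by_cases hm : ∀ s : Fin m → Fin k → ℕ, (∀ i, s i ∈ B) → ¬ GT Q s
    · refine (ih hm).mono (Nat.pow_le_pow_right (by omega) ?_) subset_rfl
      exact Nat.add_le_add_left (Nat.mul_le_mul_right _ (Nat.le_succ m)) 1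
    · push Not at hm
      obtain ⟨s, hsB, hs⟩ := hm
      set U : Finset (ℤ × (Fin (m + 1) → Fin k → ℤ)) :=
        (Finset.Icc (-(Q : ℤ)) Q) ×ˢ (Fintype.piFinset fun _ : Fin (m + 1) =>
          Fintype.piFinset fun _ : Fin k => Finset.Icc (-(Q : ℤ)) Q) with hU
      have hUc : U.card = (2 * Q + 1) ^ (1 + (m + 1) * k) := by
        rw [hU, card_product, Fintype.card_piFinset, prod_const, Fintype.card_piFinset, prod_const,
          card_univ, card_univ, Fintype.card_fin, Fintype.card_fin, Int.card_Icc]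
        have h1 : ((Q : ℤ) + 1 - -(Q : ℤ)).toNat = 2 * Q + 1 := by omega
        rw [h1, ← pow_mul, pow_add, pow_one, mul_comm k (m + 1)]
      set F : (ℤ × (Fin (m + 1) → Fin k → ℤ)) → (Fin k → ℤ) × ℤ := fun p =>
        (p.2 (Fin.last m), -(p.1 + ∑ i : Fin m, ∑ j, p.2 i.castSucc j * (s i j : ℤ))) with hF
      refine ⟨(U.filter fun p => p.2 (Fin.last m) ≠ 0).image F, ?_, ?_, ?_⟩
      · refine card_image_le.trans ((card_le_card (filter_subset _ _)).trans hUc.le)
      · intro q hq
        obtain ⟨p, hp, rfl⟩ := mem_image.1 hq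
        rw [mem_filter, hU, mem_product, Fintype.mem_piFinset] at hp
        refine ⟨hp.2, fun j => ?_⟩
        have h1 := hp.1.2 (Fin.last m)
        rw [Fintype.mem_piFinset] at h1
        exact abs_le.2 (mem_Icc.1 (h1 j))
      · intro t ht
        have h1 := h (Fin.snoc s t) (fun i => by
          refine Fin.lastCases ?_ (fun i => ?_) i
          · rw [Fin.snoc_last]
            exact ht
          · rw [Fin.snoc_castSucc]
            exact hsB i)
        rw [GT] at h1
        push Not at h1
        obtain ⟨c0, c, hc, hc0, hcQ, hrel⟩ := h1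
        rw [Fin.sum_univ_castSucc] at hrel
        simp only [Fin.snoc_castSucc, Fin.snoc_last] at hrel
        have hlast : c (Fin.last m) ≠ 0 := by
          intro h0
          refine hs c0 (fun i => c i.castSucc) ?_ hc0 (fun i j => hcQ _ j) ?_
          · intro h2
            apply hc
            funext i
            refine Fin.lastCases ?_ (fun i => ?_) i
            · exact h0
            · exact congrFun h2 i
          · rw [h0] at hrel
            simp only [Pi.zero_apply, zero_mul, sum_const_zero, add_zero] at hrel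
            exact hrel
        refine ⟨F (c0, c), mem_image.2 ⟨(c0, c), ?_, rfl⟩, ?_⟩
        · rw [mem_filter, hU, mem_product, Fintype.mem_piFinset]
          refine ⟨⟨mem_Icc.2 (abs_le.1 hc0), fun i => ?_⟩, hlast⟩
          rw [Fintype.mem_piFinset]
          exact fun j => mem_Icc.2 (abs_le.1 (hcQ i j))
        · simp only [hF]
          linarith

end Pool.Agent.T9h57.HS
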